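import Pool.Agent.P.MP_39eed7_co.Defs

-- part Pool.Agent.P.MP_39eed7_co.Crude
section

/-! A Favaron-type maximiser and the crude linear inequalities. -/

set_option autoImplicit false
set_option linter.unusedSectionVars false

open Finset

namespace Pool.Agent.P.MP_39eed7_co

variable {V : Type} [DecidableEq V]

/-- `w` has exactly `k+1` ordinary and no hard neighbours in `S` -/
def Good (k : ℕ) (G H : SimpleGraph V) (S : Finset V) (w : V) : Prop :=
  w ∉ S ∧ dg G S w = k + 1 ∧ dg H S w = 0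

noncomputable def pot (k : ℕ) (G H : SimpleGraph V) (S : Finset V) : ℤ :=
  (2 * k + 1) * (S.card : ℤ) - E2 G S - (k + 1) * E2 H S

variable {k : ℕ} {G H : SimpleGraph V} {S U : Finset V} {v : V}

lemma pot_insert (h : v ∉ S) :
    pot k G H (insert v S) = pot k G H S + (2 * k + 1) - 2 * dg G S v - 2 * (k + 1) * dg H S v := by
  unfold pot
  rw [E2_insert h, E2_insert h, card_insert_of_notMem h]
  push_cast
  ring

lemma pot_erase (h : v ∈ S) :
    pot k G H (S.erase v) = pot k G H S - (2 * k + 1) + 2 * dg G S v + 2 * (k + 1) * dg H S v := by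
  have := pot_insert (k := k) (G := G) (H := H) (notMem_erase v S)
  rw [insert_erase h, dg_erase_self, dg_erase_self] at this
  linarith

theorem exists_fav (k : ℕ) (G H : SimpleGraph V) (U : Finset V) :
    ∃ S ⊆ U, Valid k G H S ∧ (∀ w ∈ U \ S, k + 1 ≤ dg G S w + (k + 1) * dg H S w) ∧
      ∀ u ∈ S, dg G S u = k → ∀ w ∈ U, ∀ w' ∈ U, Good k G H S w → Good k G H S w' →
        G.Adj u w → G.Adj u w' → w ≠ w' → (G ⊔ H).Adj w w' := by
  obtain ⟨S, hS, hmax⟩ := exists_max_image U.powerset (pot k G H) ⟨∅, by simp⟩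
  simp only [mem_powerset] at hS hmax
  have h1 : ∀ u ∈ S, dg G S u + (k + 1) * dg H S u ≤ k := by
    intro u hu
    have := hmax _ ((erase_subset u S).trans hS)
    rw [pot_erase hu] at this
    have h2 : 2 * (dg G S u + (k + 1) * dg H S u) ≤ 2 * k + 1 := by
      zify; linarith
    omega
  have h2 : ∀ u ∈ S, dg H S u = 0 := by
    intro u hu
    have := h1 u hu
    by_contra h
    have : 1 ≤ dg H S u := Nat.one_le_iff_ne_zero.2 h
    nlinarith
  refine ⟨S, hS, ⟨fun u hu => le_trans (Nat.le_add_right _ _) (h1 u hu),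
    fun u hu => dg_eq_zero.1 (h2 u hu)⟩, fun w hw => ?_, ?_⟩
  · rw [mem_sdiff] at hw
    have := hmax _ (insert_subset hw.1 hS)
    rw [pot_insert hw.2] at this
    have h3 : 2 * k + 1 ≤ 2 * (dg G S w + (k + 1) * dg H S w) := by
      zify; linarith
    omega
  · intro u hu hk w hw w' hw' g g' a a' hne
    by_contra hn
    simp only [SimpleGraph.sup_adj, not_or] at hn
    have n1 : w ∉ S.erase u := fun h => g.1 (mem_of_mem_erase h)
    have n2 : w' ∉ insert w (S.erase u) := by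
      simp only [mem_insert, not_or]
      exact ⟨hne.symm, fun h => g'.1 (mem_of_mem_erase h)⟩
    have := hmax (insert w' (insert w (S.erase u)))
      (insert_subset hw' (insert_subset hw ((erase_subset u S).trans hS)))
    rw [pot_insert n2, pot_insert n1, pot_erase hu, dg_insert_not fun h => hn.1 h.symm,
      dg_insert_not fun h => hn.2 h.symm] at this
    have e1 := dg_erase_adj hu a.symm
    have e2 := dg_erase_adj hu a'.symm
    have e3 : dg H (S.erase u) w = 0 :=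
      Nat.le_zero.1 (g.2.2 ▸ dg_mono (erase_subset u S))
    have e4 : dg H (S.erase u) w' = 0 :=
      Nat.le_zero.1 (g'.2.2 ▸ dg_mono (erase_subset u S))
    rw [g.2.1] at e1
    rw [g'.2.1] at e2
    rw [e3, e4, hk, h2 u hu, Nat.add_right_cancel e1, Nat.add_right_cancel e2] at this
    push_cast at this
    linarith

/-- Lovasz-type bound -/
lemma lovasz {m : ℕ} (h : ∀ v ∈ U, dg G U v + (k + 1) * dg H U v ≤ m) :
    (k + 1) * U.card ≤ al k G H U * (m + k + 1) := by
  obtain ⟨S, hS, hv, hd, -⟩ := exists_fav k G H U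
  have h1 : (k + 1) * (U \ S).card ≤ m * S.card := by
    calc _ = ∑ _w ∈ U \ S, (k + 1) := by simp [mul_comm]
      _ ≤ ∑ w ∈ U \ S, (dg G S w + (k + 1) * dg H S w) := sum_le_sum hd
      _ = ∑ u ∈ S, (dg G (U \ S) u + (k + 1) * dg H (U \ S) u) := by
          rw [sum_add_distrib, sum_add_distrib, ← mul_sum, ← mul_sum, sum_dg_comm G,
            sum_dg_comm H]
      _ ≤ ∑ _u ∈ S, m := sum_le_sum fun u hu => le_trans
          (add_le_add (dg_mono sdiff_subset) (Nat.mul_le_mul_left _ (dg_mono sdiff_subset)))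
          (h u (hS hu))
      _ = _ := by simp [mul_comm]
  have h2 := card_sdiff_add_card_eq_card hS
  have h3 := le_al hS hv
  nlinarith

theorem crude (k : ℕ) (G H : SimpleGraph V) (m : ℕ) : ∀ U : Finset V,
    Ineq k m (m * (m + 1) + 2 * k * m) (k + 1) G H U := by
  induction m with
  | zero => intro U; simp [Ineq]
  | succ m ih =>
    intro U
    induction U using Finset.strongInduction with
    | H U ihU =>
      by_cases h : ∀ v ∈ U, dg G U v + (k + 1) * dg H U v ≤ m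
      · have h1 := lovasz h
        have h2 := ih U
        unfold Ineq at h2 ⊢
        nlinarith
      · push Not at h
        obtain ⟨v, hv, h⟩ := h
        have h1 := ihU _ (erase_ssubset hv)
        have h2 := al_mono (k := k) (G := G) (H := H) (erase_subset v U)
        have h3 := card_erase_add_one hv
        unfold Ineq at h1 ⊢
        rw [E2_erase (G := G) hv, E2_erase (G := H) hv, ← h3]
        have h4 := Nat.mul_le_mul_right ((m + 1) * (m + 1 + 1) + 2 * k * (m + 1)) h2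
        have h5 := Nat.mul_le_mul_left (2 * (k + 1)) (Nat.succ_le_of_lt h)
        nlinarith

end Pool.Agent.P.MP_39eed7_co
end

-- part Pool.Agent.P.MP_39eed7_co.Improve
section

/-! The sunflower exchange: enlarging a valid set at small cost. -/

set_option autoImplicit false
set_option linter.unusedSectionVars false

open Finset

namespace Pool.Agent.P.MP_39eed7_co

variable {V : Type} [DecidableEq V] {k : ℕ} {G H : SimpleGraph V}

lemma kernel {L M : ℕ} (hL : 0 < L) (S : Finset V) (r : ℕ) : ∀ K A : Finset V, K ⊆ S →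
    (∀ a ∈ A, ∀ s ∈ K, G.Adj a s) → (∀ a ∈ A, dg G S a ≤ K.card + r) → M * L ^ r ≤ A.card →
    ∃ K' A' : Finset V, K ⊆ K' ∧ K' ⊆ S ∧ A' ⊆ A ∧ (∀ a ∈ A', ∀ s ∈ K', G.Adj a s) ∧
      M ≤ A'.card ∧ ∀ s ∈ S \ K', L * dg G A' s ≤ A'.card := by
  induction r with
  | zero =>
    intro K A hK h1 h2 h3
    refine ⟨K, A, Subset.rfl, hK, Subset.rfl, h1, by simpa using h3, fun s hs => ?_⟩
    rw [mem_sdiff] at hs
    rw [dg_eq_zero.2, mul_zero]
    · exact Nat.zero_le _
    intro a ha h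
    have : insert s K ⊆ nb G S a := insert_subset (mem_nb.2 ⟨hs.1, h.symm⟩)
      fun x hx => mem_nb.2 ⟨hK hx, h1 a ha x hx⟩
    have h4 := card_le_card this
    rw [card_insert_of_notMem hs.2] at h4
    have := h2 a ha
    unfold dg at this
    omega
  | succ r ih =>
    intro K A hK h1 h2 h3
    by_cases h : ∀ s ∈ S \ K, L * dg G A s ≤ A.card
    · exact ⟨K, A, Subset.rfl, hK, Subset.rfl, h1,
        le_trans (Nat.le_mul_of_pos_right _ (pow_pos hL _)) h3, h⟩
    · push Not at h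
      obtain ⟨s, hs, h⟩ := h
      rw [mem_sdiff] at hs
      obtain ⟨K', A', a1, a2, a3, a4⟩ := ih (insert s K) (nb G A s) (insert_subset hs.1 hK)
        (fun a ha x hx => by
          rcases mem_insert.1 hx with e | hx
          · rw [e]; exact (mem_nb.1 ha).2.symm
          · exact h1 a (nb_subset ha) x hx)
        (fun a ha => by
          rw [card_insert_of_notMem hs.2]
          have := h2 a (nb_subset ha)
          omega)
        (by
          refine Nat.le_of_mul_le_mul_left (c := L) ?_ hL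
          rw [pow_succ] at h3
          unfold dg at h
          nlinarith)
      exact ⟨K', A', (subset_insert _ _).trans a1, a2, a3.trans nb_subset, a4⟩

lemma pick {L : ℕ} {R A T0 : Finset V} (hL : ∀ s ∈ R, L * dg G A s ≤ A.card)
    (hd : ∀ a ∈ T0 ∪ A, dg G R a ≤ k + 1) (h0 : ∀ s ∈ R, dg G T0 s ≤ 1) (j : ℕ) :
    2 * ((T0.card + j) * (k + 1)) ≤ L → 2 * j ≤ A.card →
    ∃ T ⊆ A, T.card = j ∧ ∀ s ∈ R, dg G (T0 ∪ T) s ≤ 1 := by
  induction j with
  | zero => exact fun _ _ => ⟨∅, by simp, rfl, by simpa using h0⟩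
  | succ j ih =>
    intro h1 h2
    obtain ⟨T, t1, t2, t3⟩ := ih (by nlinarith) (by omega)
    set F := (T0 ∪ T).biUnion (nb G R) with hF
    have f1 : F.card ≤ (T0.card + j) * (k + 1) :=
      (card_biUnion_nb_le fun x hx => hd x (union_subset_union Subset.rfl t1 hx)).trans
        (Nat.mul_le_mul_right _ (t2 ▸ card_union_le _ _))
    have f2 : F ⊆ R := biUnion_subset.2 fun _ _ => nb_subset
    have f3 : L * (F.biUnion (nb G A)).card ≤ F.card * A.card := by
      calc _ ≤ L * ∑ s ∈ F, dg G A s := Nat.mul_le_mul_left _ card_biUnion_le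
        _ = ∑ s ∈ F, L * dg G A s := mul_sum _ _ _
        _ ≤ ∑ _s ∈ F, A.card := sum_le_sum fun s hs => hL s (f2 hs)
        _ = _ := by simp
    have f4 : 2 * (F.biUnion (nb G A)).card ≤ A.card := by
      refine Nat.le_of_mul_le_mul_left (c := L) ?_ (by nlinarith)
      have : 2 * F.card ≤ L := by nlinarith
      nlinarith
    have f5 := card_union_le T (F.biUnion (nb G A))
    obtain ⟨x, hx, hx'⟩ := exists_mem_notMem_of_card_lt_card
      (show (T ∪ F.biUnion (nb G A)).card < A.card by omega)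
    rw [mem_union, not_or] at hx'
    refine ⟨insert x T, insert_subset hx t1, by rw [card_insert_of_notMem hx'.1, t2],
      fun s hs => ?_⟩
    rw [union_insert]
    by_cases a : G.Adj s x
    · have h3 : dg G (T0 ∪ T) s = 0 := dg_eq_zero.2 fun w hw a' =>
        hx'.2 (mem_biUnion.2 ⟨s, mem_biUnion.2 ⟨w, hw, mem_nb.2 ⟨hs, a'.symm⟩⟩,
          mem_nb.2 ⟨hx, a⟩⟩)
      rw [insert_eq]
      refine dg_union_le.trans ?_
      rw [h3, add_zero]
      exact dg_le_card.trans (by simp)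
    · rw [dg_insert_not a]
      exact t3 s hs

/-- a good vertex all of whose neighbours in `S` are unsaturated -/
def Clean (k : ℕ) (G H : SimpleGraph V) (S : Finset V) (w : V) : Prop :=
  Good k G H S w ∧ ∀ s ∈ S, G.Adj w s → dg G S s + 1 ≤ k

lemma petal_bound {S K K' T : Finset V} {a : V} (hK : K ⊆ K') (hS : K ⊆ S)
    (h : ∀ s ∈ K, G.Adj a s) (hd : dg G S a = k + 1) (ha : a ∈ T) (hT : T.card = K.card) :
    dg G (S \ K') a + dg G T a ≤ k := by
  have h1 := dg_sdiff (G := G) (v := a) hS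
  have h2 : K.card ≤ dg G K a := card_le_card fun s hs => mem_nb.2 ⟨hs, h s hs⟩
  have h3 := dg_lt_card (G := G) ha
  have h4 : dg G (S \ K') a ≤ dg G (S \ K) a := dg_mono (sdiff_subset_sdiff Subset.rfl hK)
  omega

theorem improve {S A B : Finset V} {u : V} (hv : Valid k G H S) (hu : u ∈ S)
    (hA : ∀ a ∈ A ∪ B, Clean k G H S a ∧ G.Adj a u) (hAB : Disjoint A B)
    (hI : ∀ a ∈ A ∪ B, ∀ b ∈ A ∪ B, ¬ H.Adj a b) (hG : ∀ a ∈ A, ∀ b ∈ B, ¬ G.Adj a b)
    (cA : (2 * k + 2) * (4 * (k + 1) ^ 2) ^ k ≤ A.card)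
    (cB : (2 * k + 2) * (4 * (k + 1) ^ 2) ^ k ≤ B.card) :
    ∃ K ⊆ S, ∃ T ⊆ A ∪ B, K.card + 1 ≤ T.card ∧ T.card ≤ 2 * k + 2 ∧
      Valid k G H (S \ K ∪ T) := by
  have hA1 : ∀ a ∈ A, Clean k G H S a ∧ G.Adj a u := fun a ha => hA a (mem_union_left _ ha)
  have hB1 : ∀ a ∈ B, Clean k G H S a ∧ G.Adj a u := fun a ha => hA a (mem_union_right _ ha)
  obtain ⟨KA, A1, a1, a2, a3, a4, a5, a6⟩ := kernel (G := G) (by positivity) S k {u} A
    (by simpa using hu) (fun a ha => by simpa using (hA1 a ha).2)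
    (fun a ha => by rw [(hA1 a ha).1.1.2.1, card_singleton]; omega) cA
  obtain ⟨KB, B1, b1, b2, b3, b4, b5, b6⟩ := kernel (G := G) (by positivity) S k {u} B
    (by simpa using hu) (fun a ha => by simpa using (hB1 a ha).2)
    (fun a ha => by rw [(hB1 a ha).1.1.2.1, card_singleton]; omega) cB
  have kA : KA.card ≤ k + 1 := by
    obtain ⟨a, ha⟩ := card_pos.1 (show 0 < A1.card by omega)
    rw [← (hA1 a (a3 ha)).1.1.2.1]
    exact card_le_card fun s hs => mem_nb.2 ⟨a2 hs, a4 a ha s hs⟩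
  have kB : KB.card ≤ k + 1 := by
    obtain ⟨a, ha⟩ := card_pos.1 (show 0 < B1.card by omega)
    rw [← (hB1 a (b3 ha)).1.1.2.1]
    exact card_le_card fun s hs => mem_nb.2 ⟨b2 hs, b4 a ha s hs⟩
  have hd : ∀ a ∈ A ∪ B, dg G (S \ (KA ∪ KB)) a ≤ k + 1 := fun a ha =>
    (dg_mono sdiff_subset).trans (hA a ha).1.1.2.1.le
  obtain ⟨TA, s1, s2, s3⟩ := pick (k := k) (R := S \ (KA ∪ KB)) (T0 := ∅)
    (fun s hs => a6 s (sdiff_subset_sdiff Subset.rfl subset_union_left hs))
    (fun a ha => hd a (mem_union_left _ (a3 (by simpa using ha))))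
    (fun s _ => dg_le_card.trans (by simp)) KA.card (by rw [card_empty]; nlinarith) (by omega)
  rw [empty_union] at s3
  obtain ⟨TB, t1, t2, t3⟩ := pick (k := k) (R := S \ (KA ∪ KB)) (T0 := TA)
    (fun s hs => b6 s (sdiff_subset_sdiff Subset.rfl subset_union_right hs))
    (fun a ha => hd a (union_subset_union (s1.trans a3) b3 ha)) s3 KB.card
    (by rw [s2]; nlinarith) (by omega)
  have hT : TA ∪ TB ⊆ A ∪ B := union_subset_union (s1.trans a3) (t1.trans b3)
  have c1 : (TA ∪ TB).card = KA.card + KB.card := by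
    rw [card_union_of_disjoint (hAB.mono (s1.trans a3) (t1.trans b3)), s2, t2]
  have c2 := card_union_add_card_inter KA KB
  have c3 : 0 < (KA ∩ KB).card :=
    card_pos.2 ⟨u, mem_inter.2 ⟨a1 (mem_singleton_self u), b1 (mem_singleton_self u)⟩⟩
  refine ⟨KA ∪ KB, union_subset a2 b2, TA ∪ TB, hT, by omega, by omega, fun v hv' => ?_, ?_⟩
  · refine dg_union_le.trans ?_
    rcases mem_union.1 hv' with h | h
    · have h1 : dg G (S \ (KA ∪ KB)) v ≤ dg G S v := dg_mono sdiff_subset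
      have h2 := t3 v h
      by_cases h3 : dg G (TA ∪ TB) v = 0
      · have := hv.1 v (mem_sdiff.1 h).1
        omega
      · rw [dg_eq_zero] at h3
        push Not at h3
        obtain ⟨w, hw, a⟩ := h3
        have := (hA w (hT hw)).1.2 v (mem_sdiff.1 h).1 a.symm
        omega
    · have h1 : dg G (TA ∪ TB) v ≤ dg G TA v + dg G TB v := dg_union_le
      rcases mem_union.1 h with h | h
      · have h2 := petal_bound (subset_union_left (s₂ := KB)) a2 (a4 v (s1 h))
          (hA1 v (a3 (s1 h))).1.1.2.1 h s2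
        have h3 : dg G TB v = 0 := dg_eq_zero.2 fun w hw => hG v (a3 (s1 h)) w (b3 (t1 hw))
        omega
      · have h2 := petal_bound (subset_union_right (s₁ := KA)) b2 (b4 v (t1 h))
          (hB1 v (b3 (t1 h))).1.1.2.1 h t2
        have h3 : dg G TA v = 0 :=
          dg_eq_zero.2 fun w hw a => hG w (a3 (s1 hw)) v (b3 (t1 h)) a.symm
        omega
  · intro v h w h'
    rcases mem_union.1 h with h | h <;> rcases mem_union.1 h' with h' | h'
    · exact hv.2 v (mem_sdiff.1 h).1 w (mem_sdiff.1 h').1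
    · exact fun a => dg_eq_zero.1 (hA w (hT h')).1.1.2.2 v (mem_sdiff.1 h).1 a.symm
    · exact dg_eq_zero.1 (hA v (hT h)).1.1.2.2 w (mem_sdiff.1 h').1
    · exact hI v (hT h) w (hT h')

lemma clean_keep {S K T : Finset V} {w : V} (hK : K ⊆ S) (hw : Clean k G H S w) (h1 : w ∉ T)
    (h2 : ∀ x ∈ K ∪ T ∪ T.biUnion (nb G S), ¬ (G ⊔ H).Adj x w) : Clean k G H (S \ K ∪ T) w := by
  simp only [SimpleGraph.sup_adj, not_or, mem_union] at h2
  have gK : dg G K w = 0 := dg_eq_zero.2 fun x hx a => (h2 x (by simp [hx])).1 a.symm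
  have hd : Disjoint (S \ K) (T \ (S \ K)) := disjoint_sdiff
  refine ⟨⟨by simp [hw.1.1, h1], ?_, ?_⟩, fun s hs a => ?_⟩
  · have g1 := dg_sdiff (G := G) (v := w) hK
    rw [← union_sdiff_self_eq_union, dg_union hd, dg_eq_zero (A := T \ (S \ K)).2
      fun x hx a => (h2 x (by simp [(mem_sdiff.1 hx).1])).1 a.symm]
    have := hw.1.2.1
    omega
  · refine dg_eq_zero.2 fun x hx a => ?_
    rcases mem_union.1 hx with hx | hx
    · exact dg_eq_zero.1 hw.1.2.2 x (mem_sdiff.1 hx).1 a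
    · exact (h2 x (by simp [hx])).2 a.symm
  · rcases mem_union.1 hs with hs | hs
    · have g1 := hw.2 s (mem_sdiff.1 hs).1 a
      have g2 : dg G (S \ K ∪ T) s ≤ dg G (S \ K) s + dg G T s := dg_union_le
      have g3 : dg G (S \ K) s ≤ dg G S s := dg_mono sdiff_subset
      have g4 : dg G T s = 0 := dg_eq_zero.2 fun x hx a' =>
        (h2 s (Or.inr (mem_biUnion.2 ⟨x, hx, mem_nb.2 ⟨(mem_sdiff.1 hs).1, a'.symm⟩⟩))).1 a.symm
      omega
    · exact absurd a.symm (h2 s (by simp [hs])).1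

open Classical in
/-- A valid set that cannot be improved any more and keeps most of the clean vertices. -/
theorem stable {U S0 : Finset V} {m : ℕ} (hm : 0 < m) (hd : ∀ v ∈ U, dg (G ⊔ H) U v ≤ m)
    (h0 : S0 ⊆ U) (hv0 : Valid k G H S0) :
    ∃ S ⊆ U, Valid k G H S ∧
      (U.filter (Clean k G H S0)).card + (2 * k + 2) * (k + 5) * m * S0.card ≤
        (U.filter (Clean k G H S)).card + (2 * k + 2) * (k + 5) * m * al k G H U ∧
      ∀ u ∈ S, ∀ A B : Finset V, A ∪ B ⊆ U → (∀ a ∈ A ∪ B, Clean k G H S a ∧ G.Adj a u) →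
        Disjoint A B → (∀ a ∈ A ∪ B, ∀ b ∈ A ∪ B, ¬ H.Adj a b) →
        (∀ a ∈ A, ∀ b ∈ B, ¬ G.Adj a b) → (2 * k + 2) * (4 * (k + 1) ^ 2) ^ k ≤ A.card →
        (2 * k + 2) * (4 * (k + 1) ^ 2) ^ k ≤ B.card → False := by
  obtain ⟨S, hS, hmax⟩ := exists_max_image (U.powerset.filter (Valid k G H))
    (fun S => (U.filter (Clean k G H S)).card + (2 * k + 2) * (k + 5) * m * S.card)
    ⟨∅, mem_filter.2 ⟨by simp, valid_empty⟩⟩
  simp only [mem_filter, mem_powerset] at hS hmax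
  refine ⟨S, hS.1, hS.2, (hmax S0 ⟨h0, hv0⟩).trans
    (Nat.add_le_add_left (Nat.mul_le_mul_left _ (le_al hS.1 hS.2)) _), ?_⟩
  intro u hu A B hU h1 h2 h3 h4 h5 h6
  obtain ⟨K, k1, T, t1, t2, t3, t4⟩ := improve hS.2 hu h1 h2 h3 h4 h5 h6
  have h7 := hmax _ ⟨union_subset (sdiff_subset.trans hS.1) (t1.trans hU), t4⟩
  have c1 : S.card + 1 ≤ (S \ K ∪ T).card := by
    rw [card_union_of_disjoint (disjoint_left.2 fun x hx hx' =>
      (h1 x (t1 hx')).1.1.1 (mem_sdiff.1 hx).1)]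
    have := card_sdiff_add_card_eq_card k1
    omega
  set Z := K ∪ T ∪ T.biUnion (nb G S) with hZ
  have z1 : Z.card ≤ (2 * k + 2) * (k + 3) := by
    have e1 := card_union_le (K ∪ T) (T.biUnion (nb G S))
    have e2 := card_union_le K T
    have e3 := card_biUnion_nb_le (G := G) (U := S) (A := T) (d := k + 1)
      fun x hx => (h1 x (t1 hx)).1.1.2.1.le
    have e4 := Nat.mul_le_mul_right (k + 1) t3
    rw [← hZ] at e1
    nlinarith
  have z2 : Z ⊆ U := union_subset (union_subset (k1.trans hS.1) (t1.trans hU))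
    (biUnion_subset.2 fun _ _ => nb_subset.trans hS.1)
  have z3 := (card_biUnion_nb_le fun x hx => hd x (z2 hx)).trans (Nat.mul_le_mul_right m z1)
  have z4 : U.filter (Clean k G H S) ⊆
      U.filter (Clean k G H (S \ K ∪ T)) ∪ (T ∪ Z.biUnion (nb (G ⊔ H) U)) := by
    intro w hw
    rw [mem_filter] at hw
    by_contra h
    simp only [mem_union (s := U.filter _), mem_union (s := T), not_or] at h
    exact h.1 (mem_filter.2 ⟨hw.1, clean_keep k1 hw.2 h.2.1 fun x hx a =>
      h.2.2 (mem_biUnion.2 ⟨x, hx, mem_nb.2 ⟨hw.1, a⟩⟩)⟩)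
  have z5 := (card_le_card z4).trans ((card_union_le _ _).trans
    (Nat.add_le_add_left (card_union_le _ _) _))
  have z6 := Nat.mul_le_mul_left ((2 * k + 2) * (k + 5) * m) c1
  have z7 : 2 * k + 2 ≤ (2 * k + 2) * m := Nat.le_mul_of_pos_right _ hm
  nlinarith

/-- Kovari-Sos-Turan by greedy averaging -/
lemma kst_step {J : SimpleGraph V} {Q P : Finset V} {θ m : ℝ} (h0 : 0 < θ)
    (hQ : (Q.card : ℝ) ≤ m) (hQ' : θ * m ≤ Q.card)
    (hP : ∀ p ∈ P, dg J Q p + θ * m ≤ Q.card) (i : ℕ) : (i : ℝ) ≤ θ * m / 2 →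
    ∃ B ⊆ Q, B.card = i ∧ ∃ P' ⊆ P, (θ / 2) ^ i * P.card ≤ P'.card ∧
      ∀ a ∈ P', ∀ b ∈ B, ¬ J.Adj a b := by
  induction i with
  | zero => exact fun _ => ⟨∅, by simp, rfl, P, Subset.rfl, by simp, by simp⟩
  | succ i ih =>
    intro hi
    push_cast at hi
    obtain ⟨B, b1, b2, P', p1, p2, p3⟩ := ih (by linarith)
    have c1 : ((Q \ B).card : ℝ) + i = Q.card := by
      exact_mod_cast b2 ▸ card_sdiff_add_card_eq_card b1
    have c2 : (Q \ B).Nonempty := by
      rw [← card_pos]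
      have : (0 : ℝ) < (Q \ B).card := by nlinarith
      exact_mod_cast this
    obtain ⟨b, hb, hs⟩ : ∃ b ∈ Q \ B, (dg J P' b : ℝ) ≤ (1 - θ / 2) * P'.card := by
      refine exists_le_of_sum_le c2 ?_
      have e1 : ∑ b ∈ Q \ B, (dg J P' b : ℝ) = ∑ p ∈ P', (dg J (Q \ B) p : ℝ) := by
        exact_mod_cast sum_dg_comm J (Q \ B) P'
      rw [e1, sum_const, nsmul_eq_mul]
      calc _ ≤ ∑ _p ∈ P', (1 - θ / 2) * ((Q \ B).card : ℝ) := by
            refine sum_le_sum fun p hp => ?_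
            have e2 : (dg J (Q \ B) p : ℝ) ≤ dg J Q p := by exact_mod_cast dg_mono sdiff_subset
            have e3 := hP p (p1 hp)
            have e4 : (0 : ℝ) ≤ i := Nat.cast_nonneg _
            nlinarith
        _ = _ := by rw [sum_const, nsmul_eq_mul]; ring
    rw [mem_sdiff] at hb
    have c3 : ((P' \ nb J P' b).card : ℝ) + dg J P' b = P'.card := by
      exact_mod_cast card_sdiff_add_card_eq_card nb_subset
    refine ⟨insert b B, insert_subset hb.1 b1, by rw [card_insert_of_notMem hb.2, b2],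
      P' \ nb J P' b, sdiff_subset.trans p1, ?_, fun a ha x hx => ?_⟩
    · rw [pow_succ', mul_assoc]
      nlinarith
    · rw [mem_sdiff] at ha
      rcases mem_insert.1 hx with e | hx
      · rw [e]; exact fun h => ha.2 (mem_nb.2 ⟨ha.1, h.symm⟩)
      · exact p3 a ha.1 x hx

theorem kst {θ : ℝ} (h0 : 0 < θ) (h1 : θ ≤ 1) (M : ℕ) : ∃ m0 : ℝ, ∀ m : ℝ, m0 ≤ m →
    ∀ (V : Type) [DecidableEq V] (J : SimpleGraph V) (Q P : Finset V), P ⊆ Q →
      (Q.card : ℝ) ≤ m → θ * m ≤ P.card → (∀ p ∈ P, dg J Q p + θ * m ≤ Q.card) →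
      ∃ A ⊆ Q, ∃ B ⊆ Q, Disjoint A B ∧ M ≤ A.card ∧ M ≤ B.card ∧
        ∀ a ∈ A, ∀ b ∈ B, ¬ J.Adj a b := by
  refine ⟨(2 * M + 1) / ((θ / 2) ^ M * θ), fun m hm V _ J Q P hPQ hQ hP hd => ?_⟩
  rw [div_le_iff₀ (by positivity)] at hm
  have e0 : (0 : ℝ) < (θ / 2) ^ M := by positivity
  have e1 : (θ / 2) ^ M ≤ 1 := pow_le_one₀ (by positivity) (by linarith)
  have e2 : (0 : ℝ) ≤ M := Nat.cast_nonneg _
  have hm0 : 0 < m := by
    by_contra h
    have := mul_nonpos_of_nonpos_of_nonneg (not_lt.1 h) (mul_pos e0 h0).le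
    linarith
  have e3 : (P.card : ℝ) ≤ Q.card := by exact_mod_cast card_le_card hPQ
  have e4 : 0 < θ * m := by positivity
  obtain ⟨B, b1, b2, P', p1, p2, p3⟩ := kst_step h0 hQ (hP.trans e3) hd M (by nlinarith)
  refine ⟨P' \ B, sdiff_subset.trans (p1.trans hPQ), B, b1, sdiff_disjoint, ?_, b2.ge,
    fun a ha => p3 a (mem_sdiff.1 ha).1⟩
  have e5 := le_card_sdiff B P'
  have e6 : (2 * M : ℝ) ≤ P'.card := by nlinarith
  have e7 : 2 * M ≤ P'.card := by exact_mod_cast e6
  omega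

end Pool.Agent.P.MP_39eed7_co
end

-- part Pool.Agent.P.MP_39eed7_co.Inner
section

/-! Sets without a valid subset of size `k+2`. -/

set_option autoImplicit false
set_option linter.unusedSectionVars false

open Finset

namespace Pool.Agent.P.MP_39eed7_co

variable {V : Type} [DecidableEq V] {k : ℕ} {G H F : SimpleGraph V} {S X : Finset V} {v : V}

lemma dg_compl (h : v ∈ X) : dg G X v + dg Gᶜ X v + 1 = X.card := by
  have h1 : Disjoint (nb G X v) (nb Gᶜ X v) := by
    rw [disjoint_left]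
    intro w h1 h2
    exact (mem_nb.1 h2).2.2 (mem_nb.1 h1).2
  have h2 : nb G X v ∪ nb Gᶜ X v = X.erase v := by
    ext w
    simp only [mem_union, mem_nb, SimpleGraph.compl_adj, mem_erase]
    constructor
    · rintro (h | h)
      · exact ⟨h.2.ne', h.1⟩
      · exact ⟨h.2.1.symm, h.1⟩
    · rintro ⟨h1, h2⟩
      by_cases h3 : G.Adj v w
      · exact Or.inl ⟨h2, h3⟩
      · exact Or.inr ⟨h2, h1.symm, h3⟩
  unfold dg
  rw [← card_union_of_disjoint h1, h2, card_erase_add_one h]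

lemma E2_compl : E2 G X + E2 Gᶜ X + X.card = X.card * X.card := by
  unfold E2
  rw [← sum_add_distrib, card_eq_sum_ones X, ← sum_add_distrib, ← card_eq_sum_ones,
    sum_congr rfl fun v hv => dg_compl hv]
  simp

lemma E2_even (G : SimpleGraph V) (X : Finset V) : Even (E2 G X) := by
  induction X using Finset.induction_on with
  | empty => simp [E2]
  | insert v X hv ih => rw [E2_insert hv]; exact ih.add (even_two_mul _)

/-- no isolated vertex -/
def Closed (F : SimpleGraph V) (S : Finset V) : Prop := ∀ v ∈ S, ∃ w ∈ S, F.Adj v w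

lemma Closed.insert {w : V} (h : Closed F S) (hw : w ∈ S) (a : F.Adj v w) :
    Closed F (insert v S) := by
  intro x hx
  rcases mem_insert.1 hx with rfl | hx
  · exact ⟨w, mem_insert_of_mem hw, a⟩
  · obtain ⟨y, hy, h⟩ := h x hx
    exact ⟨y, mem_insert_of_mem hy, h⟩

lemma Closed.insert2 {w : V} (h : Closed F S) (a : F.Adj v w) :
    Closed F (Insert.insert v (Insert.insert w S)) := by
  intro x hx
  simp only [mem_insert] at hx
  rcases hx with rfl | rfl | hx
  · exact ⟨w, by simp, a⟩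
  · exact ⟨v, by simp, a.symm⟩
  · obtain ⟨y, hy, h⟩ := h x hx
    exact ⟨y, by simp [hy], h⟩

lemma closed_path {N : Finset V} (hN : Closed F N) {a b c : V} (ha : a ∈ N) (hb : b ∈ N)
    (hc : c ∈ N) (h1 : F.Adj a b) (h2 : F.Adj a c) (hbc : b ≠ c) (j : ℕ) :
    j + 2 ≤ N.card → ∃ S ⊆ N, ∃ x ∈ N, x ∉ S ∧ Closed F S ∧ Closed F (insert x S) ∧
      (S.card = j + 2 ∨ S.card + 1 = j + 2) := by
  induction j with
  | zero =>
    intro _
    have h0 : Closed F {a, b} := Closed.insert2 (S := ∅) (by simp [Closed]) h1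
    refine ⟨{a, b}, by simp [insert_subset_iff, ha, hb], c, hc, ?_, h0,
      h0.insert (by simp) h2.symm, Or.inl (card_pair h1.ne)⟩
    simp [h2.ne', hbc.symm]
  | succ j ih =>
    intro hj
    obtain ⟨S, s1, x, x1, x2, c1, c2, e | e⟩ := ih (by omega)
    · exact ⟨S, s1, x, x1, x2, c1, c2, Or.inr (by omega)⟩
    · have hlt : (insert x S).card < N.card := by rw [card_insert_of_notMem x2]; omega
      obtain ⟨v, v1, v2⟩ := exists_mem_notMem_of_card_lt_card hlt
      obtain ⟨w, w1, w2⟩ := hN v v1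
      by_cases hw : w ∈ insert x S
      · exact ⟨insert x S, insert_subset x1 s1, v, v1, v2, c2, c2.insert hw w2,
          Or.inr (by rw [card_insert_of_notMem x2]; omega)⟩
      · simp only [mem_insert, not_or] at v2 hw
        refine ⟨insert v (insert w S), insert_subset v1 (insert_subset w1 s1), x, x1, ?_,
          c1.insert2 w2, ?_, Or.inl ?_⟩
        · simp only [mem_insert, not_or]
          exact ⟨Ne.symm v2.1, Ne.symm hw.1, x2⟩
        · obtain ⟨y, y1, y2⟩ := c2 x (by simp)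
          refine (c1.insert2 w2).insert (w := y) ?_ y2
          rcases mem_insert.1 y1 with rfl | y1
          · exact absurd y2 F.irrefl
          · simp [y1]
        · rw [card_insert_of_notMem (by simp [w2.ne, v2.2]), card_insert_of_notMem hw.2]
          omega

lemma closed_matching {N : Finset V} (hN : Closed F N) (h1 : ∀ v ∈ N, dg F N v ≤ 1) (j : ℕ) :
    2 * j ≤ N.card → ∃ S ⊆ N, Closed F S ∧ S.card = 2 * j := by
  induction j with
  | zero => exact fun _ => ⟨∅, by simp, by simp [Closed], rfl⟩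
  | succ j ih =>
    intro hj
    obtain ⟨S, s1, c1, e⟩ := ih (by omega)
    obtain ⟨v, v1, v2⟩ := exists_mem_notMem_of_card_lt_card (show S.card < N.card by omega)
    obtain ⟨w, w1, w2⟩ := hN v v1
    have hw : w ∉ S := by
      intro hw
      obtain ⟨y, y1, y2⟩ := c1 w hw
      have := card_le_one.1 (h1 w w1) v (mem_nb.2 ⟨v1, w2.symm⟩) y (mem_nb.2 ⟨s1 y1, y2⟩)
      exact v2 (this ▸ y1)
    refine ⟨insert v (insert w S), insert_subset v1 (insert_subset w1 s1), c1.insert2 w2, ?_⟩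
    rw [card_insert_of_notMem (by simp [w2.ne, v2]), card_insert_of_notMem hw]
    omega

lemma closed_or (k : ℕ) (F : SimpleGraph V) (X : Finset V) :
    (∃ S ⊆ X, S.card = k + 2 ∧ Closed F S) ∨ E2 F X ≤ k * (k + 1) ∨
      (Odd k ∧ E2 F X ≤ X.card) := by
  set N := X.filter fun v => dg F X v ≠ 0 with hN
  have hNX : N ⊆ X := filter_subset _ _
  have hnb : ∀ v ∈ X, nb F X v = nb F N v := by
    intro v hv
    refine Subset.antisymm (fun w hw => ?_) (nb_mono hNX)
    rw [mem_nb] at hw ⊢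
    exact ⟨mem_filter.2 ⟨hw.1, fun h => dg_eq_zero.1 h v hv hw.2.symm⟩, hw.2⟩
  have hc : Closed F N := by
    intro v hv
    rw [mem_filter] at hv
    obtain ⟨w, hw⟩ := card_ne_zero.1 hv.2
    rw [hnb v hv.1, mem_nb] at hw
    exact ⟨w, hw.1, hw.2⟩
  by_cases hcard : N.card ≤ k + 1
  · refine Or.inr (Or.inl ?_)
    calc E2 F X = ∑ v ∈ N, dg F X v := (sum_filter_ne_zero X).symm
      _ ≤ ∑ _v ∈ N, k := sum_le_sum fun v hv => by
          have := dg_lt_card (G := F) hv
          unfold dg at this ⊢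
          rw [hnb v (hNX hv)]
          omega
      _ ≤ _ := by rw [sum_const, smul_eq_mul, mul_comm]; exact Nat.mul_le_mul_left _ hcard
  by_cases h1 : ∀ v ∈ X, dg F X v ≤ 1
  · rcases Nat.even_or_odd k with ⟨j, hj⟩ | hk
    · obtain ⟨S, s1, s2, s3⟩ := closed_matching hc
        (fun v hv => (dg_mono hNX).trans (h1 v (hNX hv))) (j + 1) (by omega)
      exact Or.inl ⟨S, s1.trans hNX, by omega, s2⟩
    · refine Or.inr (Or.inr ⟨hk, ?_⟩)
      rw [card_eq_sum_ones]
      exact sum_le_sum h1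
  · push Not at h1
    obtain ⟨a, ha, h1⟩ := h1
    have haN : a ∈ N := mem_filter.2 ⟨ha, by omega⟩
    unfold dg at h1
    rw [hnb a ha] at h1
    obtain ⟨b, hb, c, hc', hbc⟩ := one_lt_card.1 h1
    rw [mem_nb] at hb hc'
    obtain ⟨S, s1, x, x1, x2, c1, c2, e | e⟩ :=
      closed_path hc haN hb.1 hc'.1 hb.2 hc'.2 hbc k (by omega)
    · exact Or.inl ⟨S, s1.trans hNX, e, c1⟩
    · exact Or.inl ⟨insert x S, (insert_subset x1 s1).trans hNX,
        by rw [card_insert_of_notMem x2, e], c2⟩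

lemma valid_of_closed (hc : Closed Gᶜ S) (hS : S.card = k + 2)
    (hH : ∀ v ∈ S, ∀ w ∈ S, ¬ H.Adj v w) : Valid k G H S := by
  refine ⟨fun v hv => ?_, hH⟩
  have h1 := dg_compl (G := G) hv
  obtain ⟨w, hw, a⟩ := hc v hv
  have h2 : dg Gᶜ S v ≠ 0 := fun h => dg_eq_zero.1 h w hw a
  omega

open Classical in
lemma star_bound (hX : ∀ S ⊆ X, Valid k G H S → S.card ≤ k + 1) (hv : v ∈ X) :
    ((nb (G ⊔ H)ᶜ X v).filter fun u => dg H X u ≤ dg H X v).card ≤ k * (dg H X v + 1) := by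
  by_contra h
  obtain ⟨T, t1, t2, t3⟩ := exists_indep H (dg H X v) k _
    (fun b hb => (dg_mono ((filter_subset _ _).trans nb_subset)).trans (mem_filter.1 hb).2)
    (not_le.1 h)
  have hT : ∀ u ∈ T, u ∈ X ∧ v ≠ u ∧ ¬ G.Adj v u ∧ ¬ H.Adj v u := by
    intro u hu
    have := (mem_filter.1 (t1 hu)).1
    simpa only [mem_nb, SimpleGraph.compl_adj, SimpleGraph.sup_adj, not_or] using this
  have hvT : v ∉ T := fun h => (hT v h).2.1 rfl
  have hcard : (insert v T).card = k + 2 := by rw [card_insert_of_notMem hvT, t2]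
  obtain ⟨u0, hu0⟩ := card_pos.1 (show 0 < T.card by omega)
  have := hX (insert v T) (insert_subset hv fun u hu => (hT u hu).1) (valid_of_closed (by
    intro x hx
    rcases mem_insert.1 hx with e | hx
    · exact ⟨u0, mem_insert_of_mem hu0, e ▸ ⟨(hT u0 hu0).2.1, (hT u0 hu0).2.2.1⟩⟩
    · exact ⟨v, mem_insert_self _ _, (hT x hx).2.1.symm, fun a => (hT x hx).2.2.1 a.symm⟩)
    hcard (by
    intro x hx y hy
    rcases mem_insert.1 hx with e | hx <;> rcases mem_insert.1 hy with e' | hy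
    · rw [e, e']; exact H.irrefl
    · rw [e]; exact (hT y hy).2.2.2
    · rw [e']; exact fun a => (hT x hx).2.2.2 a.symm
    · exact t3 x hx y hy))
  omega

lemma compl_bound (hX : ∀ S ⊆ X, Valid k G H S → S.card ≤ k + 1) :
    E2 Gᶜ X ≤ E2 Gᶜ (X.filter fun v => dg H X v = 0) + (4 * k + 1) * E2 H X := by
  classical
  set X0 := X.filter fun v => dg H X v = 0 with hX0
  set r : V → V → ℕ := fun v u =>
    if dg H X v ≠ 0 ∧ (G ⊔ H)ᶜ.Adj v u ∧ dg H X u ≤ dg H X v then 1 else 0 with hr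
  have h1 : ∀ v ∈ X, ∑ u ∈ X, r v u ≤ 2 * k * dg H X v := by
    intro v hv
    by_cases h0 : dg H X v = 0
    · simp [hr, h0]
    · have h2 := star_bound hX hv
      have h3 : ∑ u ∈ X, r v u
          = ((nb (G ⊔ H)ᶜ X v).filter fun u => dg H X u ≤ dg H X v).card := by
        rw [nb, filter_filter, card_filter]
        exact sum_congr rfl fun u _ => by
          simp only [hr, h0, ne_eq, not_false_eq_true, true_and]
          congr
      have h4 : 1 ≤ dg H X v := Nat.one_le_iff_ne_zero.2 h0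
      nlinarith
  have h2 : ∑ v ∈ X, ∑ u ∈ X, r v u ≤ 2 * k * E2 H X := by
    rw [E2, mul_sum]
    exact sum_le_sum h1
  have h3 : E2 Gᶜ X0 = ∑ v ∈ X, ∑ u ∈ X,
      if dg H X v = 0 ∧ dg H X u = 0 ∧ Gᶜ.Adj v u then 1 else 0 := by
    rw [E2, hX0, sum_filter]
    refine sum_congr rfl fun v _ => ?_
    split_ifs with h
    · rw [dg_eq_sum, sum_filter]
      refine sum_congr rfl fun u _ => ?_
      by_cases h' : dg H X u = 0 <;> simp [h, h']
    · simp [h]
  have h4 : E2 Gᶜ X ≤ ∑ v ∈ X, ∑ u ∈ X,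
      ((if dg H X v = 0 ∧ dg H X u = 0 ∧ Gᶜ.Adj v u then 1 else 0) +
        (if H.Adj v u then 1 else 0) + r v u + r u v) := by
    refine sum_le_sum fun v _ => ?_
    rw [dg_eq_sum]
    refine sum_le_sum fun u _ => ?_
    by_cases a : Gᶜ.Adj v u
    · rw [if_pos a]
      by_cases b : H.Adj v u
      · rw [if_pos b]; omega
      have c : (G ⊔ H)ᶜ.Adj v u := ⟨a.1, fun h => h.elim a.2 b⟩
      by_cases d : dg H X v = 0 ∧ dg H X u = 0
      · rw [if_pos ⟨d.1, d.2, a⟩]; omega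
      rcases le_total (dg H X u) (dg H X v) with e | e
      · have : r v u = 1 := if_pos ⟨by omega, c, e⟩
        omega
      · have : r u v = 1 := if_pos ⟨by omega, c.symm, e⟩
        omega
    · rw [if_neg a]; exact Nat.zero_le _
  simp only [sum_add_distrib] at h4
  rw [sum_comm (f := fun v u => r u v), ← h3] at h4
  have h5 : ∑ v ∈ X, ∑ u ∈ X, (if H.Adj v u then 1 else 0) = E2 H X :=
    sum_congr rfl fun v _ => dg_eq_sum.symm
  rw [h5] at h4
  nlinarith

theorem inner {m g c : ℕ} (hc : 4 * k + 1 ≤ c) (hg1 : k * (k + 1) ≤ g)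
    (hg2 : Odd k → Even m ∧ m ≤ g) (hX : ∀ S ⊆ X, Valid k G H S → S.card ≤ k + 1) :
    2 * m * X.card ≤ E2 G X + c * E2 H X + (m * (m + 1) + g) := by
  have h1 := compl_bound hX
  set X0 := X.filter fun v => dg H X v = 0 with hX0
  have hs : X0 ⊆ X := filter_subset _ _
  have h2 := E2_compl (G := G) (X := X)
  have h3 := Nat.mul_le_mul_right (E2 H X) hc
  have h4 : (E2 Gᶜ X0 : ℤ) ≤ g + (X.card - m) * (X.card - m - 1) := by
    have h0 : (0 : ℤ) ≤ (X.card - m) * (X.card - m - 1) := by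
      rcases le_or_gt (X.card - m : ℤ) 0 with h | h
      · exact mul_nonneg_of_nonpos_of_nonpos h (by linarith)
      · exact mul_nonneg h.le (by linarith)
    rcases closed_or k Gᶜ X0 with ⟨S, s1, s2, s3⟩ | h | ⟨hk, h⟩
    · have := hX S (s1.trans hs) (valid_of_closed s3 s2 fun v hv w hw =>
        dg_eq_zero.1 (mem_filter.1 (s1 hv)).2 w (hs (s1 hw)))
      omega
    · have : (E2 Gᶜ X0 : ℤ) ≤ g := by exact_mod_cast h.trans hg1
      linarith
    · obtain ⟨⟨a, ha⟩, hm⟩ := hg2 hk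
      obtain ⟨b, hb⟩ := E2_even Gᶜ X0
      have h5 := card_le_card hs
      rcases le_or_gt X.card (m + 1) with h6 | h6
      · have : (E2 Gᶜ X0 : ℤ) ≤ g := by
          have : E2 Gᶜ X0 ≤ g := by omega
          exact_mod_cast this
        linarith
      · have h7 : (E2 Gᶜ X0 : ℤ) ≤ X.card := by exact_mod_cast h.trans h5
        have h8 : (m : ℤ) + 2 ≤ X.card := by exact_mod_cast h6
        have h9 : (m : ℤ) ≤ g := by exact_mod_cast hm
        nlinarith
  zify at h1 h2 h3 ⊢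
  nlinarith

end Pool.Agent.P.MP_39eed7_co
end

-- part Pool.Agent.P.MP_39eed7_co.Select
section

/-! Choice of candidates inside a near-clique and the two reductions. -/

set_option autoImplicit false
set_option linter.unusedSectionVars false

open Finset

namespace Pool.Agent.P.MP_39eed7_co

variable {V : Type} [DecidableEq V] {k : ℕ} {G H J : SimpleGraph V} {U X : Finset V}

open Classical in
lemma hit_step {P W : Finset V} (ω : V → ℝ) (hω : ∀ w, 0 ≤ ω w) {b : ℝ} (hP : P.Nonempty)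
    (hm : ∀ w ∈ W, b * P.card ≤ (P \ nb J P w).card) :
    ∃ x ∈ P, ∑ w ∈ W, ω w * (if J.Adj w x then 1 else 1 / 2) ≤ (1 - b / 2) * ∑ w ∈ W, ω w := by
  refine exists_le_of_sum_le hP ?_
  rw [sum_comm, sum_const, nsmul_eq_mul, mul_sum, mul_sum]
  refine sum_le_sum fun w hw => ?_
  have h1 : ∑ x ∈ P, (if J.Adj w x then (1 : ℝ) else 1 / 2)
      = P.card - (1 / 2) * (P \ nb J P w).card := by
    have : P \ nb J P w = P.filter fun x => ¬ J.Adj w x := by
      ext x
      simp only [mem_sdiff, mem_nb, mem_filter]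
      tauto
    rw [this, card_filter, card_eq_sum_ones P]
    push_cast
    rw [mul_sum, ← sum_sub_distrib]
    exact sum_congr rfl fun x _ => by split_ifs <;> norm_num
  rw [← mul_sum, h1]
  have := mul_le_mul_of_nonneg_left (hm w hw) (hω w)
  nlinarith

lemma select {P W Y0 : Finset V} {L : ℕ} {h t b : ℝ} (hh : ∀ x ∈ P, (dg H P x : ℝ) ≤ h)
    (h0 : 0 ≤ h) (hL : L * (h + 1) ≤ t) (hP : t < P.card) (hb0 : 0 ≤ b) (hb : b ≤ 1)
    (hm : ∀ w ∈ W, t + b * P.card ≤ (P \ nb J P w).card) (hY : Y0 ⊆ P)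
    (hI : ∀ v ∈ Y0, ∀ w ∈ Y0, ¬ H.Adj v w) (j : ℕ) : Y0.card + j ≤ L →
    ∃ Y ⊆ P, Y0 ⊆ Y ∧ Y.card = Y0.card + j ∧ (∀ v ∈ Y, ∀ w ∈ Y, ¬ H.Adj v w) ∧
      ∑ w ∈ W, (1 / 2 : ℝ) ^ (Y \ nb J Y w).card ≤ (1 - b / 2) ^ j * W.card := by
  classical
  induction j with
  | zero =>
    refine fun _ => ⟨Y0, hY, Subset.rfl, rfl, hI, ?_⟩
    rw [pow_zero, one_mul, card_eq_sum_ones W]
    push_cast
    exact sum_le_sum fun w _ => pow_le_one₀ (by norm_num) (by norm_num)
  | succ j ih =>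
    intro hj
    obtain ⟨Y, y1, y2, y3, y4, y5⟩ := ih (by omega)
    set F := Y ∪ Y.biUnion (nb H P) with hF
    have hFc : (F.card : ℝ) ≤ t := by
      have h1 : (F.card : ℝ) ≤ Y.card + ∑ x ∈ Y, (dg H P x : ℝ) := by
        have := (card_union_le Y (Y.biUnion (nb H P))).trans
          (Nat.add_le_add_left card_biUnion_le _)
        exact_mod_cast this
      have h2 : ∑ x ∈ Y, (dg H P x : ℝ) ≤ Y.card * h := by
        rw [← nsmul_eq_mul, ← sum_const]
        exact sum_le_sum fun x hx => hh x (y1 hx)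
      have h3 : (Y.card : ℝ) ≤ L := by exact_mod_cast (show Y.card ≤ L by omega)
      nlinarith
    have hne : (P \ F).Nonempty := by
      rw [sdiff_nonempty]
      intro h
      have : (P.card : ℝ) ≤ F.card := by exact_mod_cast card_le_card h
      linarith
    obtain ⟨x, hx, hs⟩ := hit_step (J := J) (W := W) (fun w => (1 / 2 : ℝ) ^ (Y \ nb J Y w).card)
      (fun _ => by positivity) (b := b) hne (fun w hw => by
        have h1 := hm w hw
        have h2 : (P \ nb J P w).card ≤ ((P \ F) \ nb J (P \ F) w).card + F.card := by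
          refine le_trans (card_le_card fun x hx => ?_) (card_union_le _ _)
          simp only [mem_sdiff, mem_nb, mem_union (s := (P \ F) \ nb J (P \ F) w)] at hx ⊢
          tauto
        have h3 : ((P \ nb J P w).card : ℝ) ≤ ((P \ F) \ nb J (P \ F) w).card + F.card := by
          exact_mod_cast h2
        have h4 : ((P \ F).card : ℝ) ≤ P.card := by exact_mod_cast card_le_card sdiff_subset
        nlinarith)
    simp only [hF, mem_sdiff, mem_union, mem_biUnion, mem_nb, not_or, not_exists, not_and] at hx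
    obtain ⟨x1, x2, x3⟩ := hx
    refine ⟨insert x Y, insert_subset x1 y1, y2.trans (subset_insert _ _),
      by rw [card_insert_of_notMem x2]; omega, ?_, ?_⟩
    · intro v hv w hw
      rcases mem_insert.1 hv with e | hv <;> rcases mem_insert.1 hw with e' | hw
      · rw [e, e']; exact H.irrefl
      · rw [e]; exact fun a => x3 w hw x1 a.symm
      · rw [e']; exact x3 v hv x1
      · exact y4 v hv w hw
    · refine le_trans (le_of_eq (sum_congr rfl fun w _ => ?_)) (hs.trans ?_)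
      · split_ifs with a
        · rw [mul_one]
          congr 2
          ext y
          simp only [mem_sdiff, mem_insert, mem_nb]
          constructor
          · rintro ⟨rfl | h, h'⟩
            · exact absurd ⟨Or.inl rfl, a⟩ h'
            · exact ⟨h, fun h2 => h' ⟨Or.inr h, h2.2⟩⟩
          · exact fun h => ⟨Or.inr h.1, fun h2 => h.2 ⟨h.1, h2.2⟩⟩
        · rw [← pow_succ, ← card_insert_of_notMem (a := x) (by simp [x2])]
          congr 2
          ext y
          simp only [mem_sdiff, mem_insert, mem_nb]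
          constructor
          · rintro ⟨rfl | h, h'⟩
            · exact Or.inl rfl
            · exact Or.inr ⟨h, fun h2 => h' ⟨Or.inr h, h2.2⟩⟩
          · rintro (rfl | h)
            · exact ⟨Or.inl rfl, fun h2 => a h2.2⟩
            · exact ⟨Or.inr h.1, fun h2 => h.2 ⟨h.1, h2.2⟩⟩
      · rw [pow_succ', mul_assoc]
        exact mul_le_mul_of_nonneg_left y5 (by linarith)

/-- the complete graph on `W` -/
def cliq (W : Finset V) : SimpleGraph V where
  Adj a b := a ≠ b ∧ a ∈ W ∧ b ∈ W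
  symm := ⟨fun _ _ h => ⟨h.1.symm, h.2.2, h.2.1⟩⟩
  loopless := ⟨fun _ h => h.1 rfl⟩

lemma E2_cliq (W U : Finset V) : E2 (H ⊔ cliq W) U ≤ E2 H U + W.card * W.card := by
  have h1 : E2 (H ⊔ cliq W) U ≤ E2 H U + E2 (cliq W) U := by
    unfold E2
    rw [← sum_add_distrib]
    exact sum_le_sum fun _ _ => dg_sup_le
  refine h1.trans (Nat.add_le_add_left ?_ _)
  calc E2 (cliq W) U = ∑ v ∈ U.filter (· ∈ W), dg (cliq W) U v := by
        rw [E2, sum_filter]
        refine sum_congr rfl fun v _ => ?_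
        split_ifs with h
        · rfl
        · exact dg_eq_zero.2 fun w _ a => h a.2.1
    _ ≤ ∑ _v ∈ U.filter (· ∈ W), W.card :=
        sum_le_sum fun v _ => card_le_card fun w hw => (mem_nb.1 hw).2.2.2
    _ ≤ _ := by
        rw [sum_const, smul_eq_mul]
        exact Nat.mul_le_mul_right _ (card_le_card fun v hv => (mem_filter.1 hv).2)

/-- reduction when the near-clique contains a valid set of size `k+2` -/
lemma redA {m a c : ℕ} {S : Finset V} (hX : X ⊆ U) (hS : S ⊆ X) (hv : Valid k G H S)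
    (hc : S.card = k + 2)
    (hnum : 2 * (k + 1) * m * (X.card + (S.biUnion (nb (G ⊔ H) (U \ X))).card)
      ≤ (k + 1) * E2 G X + (k + 2) * a)
    (ih : ∀ U' ⊂ U, Ineq k m a c G H U') : Ineq k m a c G H U := by
  set N := S.biUnion (nb (G ⊔ H) (U \ X)) with hN
  have hne : X.Nonempty := (card_pos.1 (by omega)).mono hS
  have h1 := ih ((U \ X) \ N)
    (Finset.ssubset_of_subset_of_ssubset sdiff_subset (sdiff_ssubset hX hne))
  have h2 : al k G H ((U \ X) \ N) + (k + 2) ≤ al k G H U := by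
    obtain ⟨T, t1, t2, t3⟩ := exists_al k G H ((U \ X) \ N)
    have hd : Disjoint T S := disjoint_left.2 fun x hx hx' =>
      (mem_sdiff.1 (mem_sdiff.1 (t1 hx)).1).2 (hS hx')
    rw [← t3, ← hc, ← card_union_of_disjoint hd]
    refine le_al (union_subset (t1.trans (sdiff_subset.trans sdiff_subset)) (hS.trans hX))
      (t2.union hv fun x hx s hs a => ?_)
    have := mem_sdiff.1 (t1 hx)
    exact this.2 (mem_biUnion.2 ⟨s, hs, mem_nb.2 ⟨this.1, a.symm⟩⟩)
  have h3 := E2_split (G := G) hX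
  have h4 := E2_mono (G := G) (sdiff_subset (s := U \ X) (t := N))
  have h5 := E2_mono (G := H) ((sdiff_subset (s := U \ X) (t := N)).trans sdiff_subset)
  have h6 := card_sdiff_add_card_eq_card hX
  have h7 := le_card_sdiff N (U \ X)
  have h8 : U.card ≤ ((U \ X) \ N).card + (X.card + N.card) := by omega
  unfold Ineq at h1 ⊢
  have h9 := Nat.mul_le_mul_left (2 * (k + 1) * m) h8
  have h10 := Nat.mul_le_mul_right a h2
  have h11 := Nat.mul_le_mul_left ((k + 1) * c) h5
  have h12 : (k + 1) * (E2 G ((U \ X) \ N) + E2 G X) ≤ (k + 1) * E2 G U :=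
    Nat.mul_le_mul_left _ (by omega)
  nlinarith

/-- reduction when the near-clique contains no valid set of size `k+2` -/
lemma redB {m a c : ℕ} {Y Bad : Finset V} (hX : X ⊆ U) (hY : Y ⊆ X) (hc : 1 ≤ c)
    (hI : ∀ v ∈ Y, ∀ w ∈ Y, ¬ H.Adj v w) (hYc : k + 1 ≤ Y.card)
    (hmiss : ∀ w ∈ (U \ X) \ Bad, k + 1 ≤ (Y \ nb (G ⊔ H) Y w).card)
    (hin : 2 * m * X.card ≤ E2 G X + c * E2 H X + a)
    (hnum : 2 * m * Bad.card + c * ((Y.biUnion (nb (G ⊔ H) (U \ X))).card *
      (Y.biUnion (nb (G ⊔ H) (U \ X))).card) ≤ 2 * ∑ x ∈ X, dg (G ⊔ H) (U \ X) x)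
    (ih : ∀ U' ⊂ U, ∀ H', Ineq k m a c G H' U') : Ineq k m a c G H U := by
  set W := Y.biUnion (nb (G ⊔ H) (U \ X)) with hW
  have hne : X.Nonempty := (card_pos.1 (by omega)).mono hY
  have h1 := ih ((U \ X) \ Bad)
    (Finset.ssubset_of_subset_of_ssubset sdiff_subset (sdiff_ssubset hX hne)) (H ⊔ cliq W)
  have h2 : al k G (H ⊔ cliq W) ((U \ X) \ Bad) + (k + 1) ≤ al k G H U := by
    obtain ⟨T, t1, t2, t3⟩ := exists_al k G (H ⊔ cliq W) ((U \ X) \ Bad)
    have hTW : ∀ x ∈ T, ∀ s ∈ Y, (G ⊔ H).Adj x s → x ∈ W := fun x hx s hs a =>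
      mem_biUnion.2 ⟨s, hs, mem_nb.2 ⟨(mem_sdiff.1 (t1 hx)).1, a.symm⟩⟩
    obtain ⟨S, s1, s2, s3⟩ : ∃ S ⊆ Y, S.card = k + 1 ∧ ∀ x ∈ T, ∀ s ∈ S, ¬ (G ⊔ H).Adj x s := by
      by_cases h : ∃ w ∈ T, w ∈ W
      · obtain ⟨w, w1, w2⟩ := h
        obtain ⟨S, s1, s2⟩ := exists_subset_card_eq (hmiss w (t1 w1))
        refine ⟨S, s1.trans sdiff_subset, s2, fun x hx s hs a => ?_⟩
        have h3 := mem_sdiff.1 (s1 hs)
        by_cases e : x = w
        · exact h3.2 (mem_nb.2 ⟨h3.1, e ▸ a⟩)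
        · exact t2.2 x hx w w1 (Or.inr ⟨e, hTW x hx s h3.1 a, w2⟩)
      · obtain ⟨S, s1, s2⟩ := exists_subset_card_eq hYc
        exact ⟨S, s1, s2, fun x hx s hs a => h ⟨x, hx, hTW x hx s (s1 hs) a⟩⟩
    have hd : Disjoint T S := disjoint_left.2 fun x hx hx' =>
      (mem_sdiff.1 (mem_sdiff.1 (t1 hx)).1).2 (hY (s1 hx'))
    rw [← t3, ← s2, ← card_union_of_disjoint hd]
    refine le_al (union_subset (t1.trans (sdiff_subset.trans sdiff_subset))
      ((s1.trans hY).trans hX)) (Valid.union ⟨t2.1, fun v hv w hw a => t2.2 v hv w hw (Or.inl a)⟩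
        ⟨fun v hv => ?_, fun v hv w hw => hI v (s1 hv) w (s1 hw)⟩ s3)
    have := dg_lt_card (G := G) hv
    omega
  have h3 := E2_split (G := G) hX
  have h3' := E2_split (G := H) hX
  have h4 := E2_mono (G := G) (sdiff_subset (s := U \ X) (t := Bad))
  have h5 := (E2_cliq (H := H) W ((U \ X) \ Bad)).trans
    (Nat.add_le_add_right (E2_mono (G := H) (sdiff_subset (s := U \ X) (t := Bad))) _)
  have h6 := card_sdiff_add_card_eq_card hX
  have h7 := le_card_sdiff Bad (U \ X)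
  have h8 : U.card ≤ ((U \ X) \ Bad).card + (X.card + Bad.card) := by omega
  have h9 : ∑ x ∈ X, dg (G ⊔ H) (U \ X) x
      ≤ ∑ x ∈ X, dg G (U \ X) x + c * ∑ x ∈ X, dg H (U \ X) x := by
    refine le_trans ?_ (Nat.add_le_add_left (Nat.le_mul_of_pos_left _ hc) _)
    rw [← sum_add_distrib]
    exact sum_le_sum fun _ _ => dg_sup_le
  have h10 := Nat.mul_le_mul_left c h5
  have key : E2 G ((U \ X) \ Bad) + c * E2 (H ⊔ cliq W) ((U \ X) \ Bad)
      + 2 * m * (X.card + Bad.card) ≤ E2 G U + c * E2 H U + a := by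
    rw [h3, h3']
    nlinarith
  unfold Ineq at h1 ⊢
  have h11 := Nat.mul_le_mul_left (2 * (k + 1) * m) h8
  have h12 := Nat.mul_le_mul_right a h2
  have h13 := Nat.mul_le_mul_left (k + 1) key
  nlinarith

end Pool.Agent.P.MP_39eed7_co
end

-- part Pool.Agent.P.MP_39eed7_co.Remove
section

/-! Removing a near-clique. -/

set_option autoImplicit false
set_option linter.unusedSectionVars false

open Finset

namespace Pool.Agent.P.MP_39eed7_co

variable {V : Type} [DecidableEq V]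

lemma sum_le_card_mul {A : Finset V} {f : V → ℝ} {x : ℝ} (h : ∀ a ∈ A, f a ≤ x) :
    ∑ a ∈ A, f a ≤ A.card * x := by
  rw [← nsmul_eq_mul, ← sum_const]
  exact sum_le_sum h

lemma card_mul_le_sum {A : Finset V} {f : V → ℝ} {x : ℝ} (h : ∀ a ∈ A, x ≤ f a) :
    A.card * x ≤ ∑ a ∈ A, f a := by
  rw [← nsmul_eq_mul, ← sum_const]
  exact sum_le_sum h

lemma card_biUnion_nb_le' {G : SimpleGraph V} {A U : Finset V} {x : ℝ}
    (h : ∀ a ∈ A, (dg G U a : ℝ) ≤ x) : ((A.biUnion (nb G U)).card : ℝ) ≤ A.card * x := by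
  refine le_trans ?_ (sum_le_card_mul h)
  exact_mod_cast card_biUnion_le

theorem remove_core {k c m g j : ℕ} {β κ : ℝ} (hc : 4 * k + 2 ≤ c) (hβ0 : 0 < β)
    (hβ : β * (4 * (k + 1) * (k + 2)) = 1) (hκ0 : 0 ≤ κ)
    (hκ : κ * (8 * c * ((k + 1 + j : ℕ) : ℝ) ^ 2) = β)
    (hj : (1 - β / 4 / 2) ^ j * (8 * (k + 1) * 2 ^ k) ≤ β)
    (hm : 8 * ((k + 1 + j : ℕ) : ℝ) ≤ β * m)
    (hg1 : k * (k + 1) ≤ g) (hg2 : Odd k → Even m ∧ m ≤ g)
    {G H : SimpleGraph V} {U Q : Finset V} (hQ : Q ⊆ U) (hne : Q.Nonempty) (hQm : Q.card ≤ m)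
    (hQd : ∀ q ∈ Q, (1 - κ) * m ≤ dg (G ⊔ H) Q q) (hd : ∀ v ∈ U, dg G U v + c * dg H U v ≤ m)
    (ih : ∀ U' ⊂ U, ∀ H', Ineq k m (m * (m + 1) + g) c G H' U') :
    Ineq k m (m * (m + 1) + g) c G H U := by
  classical
  set L := k + 1 + j with hL
  have hk0 : (0 : ℝ) ≤ k := Nat.cast_nonneg k
  have hL1 : (1 : ℝ) ≤ L := by exact_mod_cast (show 1 ≤ L by omega)
  have hc2 : (2 : ℝ) ≤ c := by exact_mod_cast (show 2 ≤ c by omega)
  have hβ8 : β ≤ 1 / 8 := by nlinarith [mul_nonneg hk0 hk0]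
  have hκL : κ * L * 16 ≤ β := by
    have : (16 : ℝ) * L ≤ 8 * c * L ^ 2 := by nlinarith
    nlinarith
  have hκβ : κ * 16 ≤ β := by nlinarith
  have hm0 : (0 : ℝ) < m := by
    by_contra h
    nlinarith
  have hQm' : (Q.card : ℝ) ≤ m := by exact_mod_cast hQm
  have hJ : ∀ v ∈ U, (dg (G ⊔ H) U v : ℝ) ≤ m := by
    intro v hv
    have h1 := hd v hv
    have h2 := dg_sup_le (G := G) (H := H) (A := U) (v := v)
    have h3 : dg H U v ≤ c * dg H U v := Nat.le_mul_of_pos_left _ (by omega)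
    exact_mod_cast (show dg (G ⊔ H) U v ≤ m by omega)
  have hQH : ∀ q ∈ Q, (dg H U q : ℝ) ≤ κ * m := by
    intro q hq
    have h1 : (dg G U q : ℝ) + c * dg H U q ≤ m := by exact_mod_cast hd q (hQ hq)
    have h2 : (dg (G ⊔ H) Q q : ℝ) ≤ dg G U q + dg H U q := by
      exact_mod_cast (dg_mono hQ).trans dg_sup_le
    have h3 := hQd q hq
    have h4 : (0 : ℝ) ≤ dg H U q := Nat.cast_nonneg _
    nlinarith
  have hQG : ∀ q ∈ Q, (1 - 2 * κ) * m ≤ dg G Q q := by
    intro q hq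
    have h2 : (dg (G ⊔ H) Q q : ℝ) ≤ dg G Q q + dg H U q := by
      exact_mod_cast dg_sup_le.trans (Nat.add_le_add_left (dg_mono hQ) _)
    linarith [hQd q hq, hQH q hq]
  have hQc : (1 - κ) * m ≤ Q.card := by
    obtain ⟨q, hq⟩ := hne
    refine (hQd q hq).trans ?_
    exact_mod_cast dg_le_card
  have hQo : ∀ q ∈ Q, (dg (G ⊔ H) (U \ Q) q : ℝ) ≤ κ * m := by
    intro q hq
    have h1 : (dg (G ⊔ H) (U \ Q) q : ℝ) + dg (G ⊔ H) Q q = dg (G ⊔ H) U q := by
      exact_mod_cast dg_sdiff hQ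
    linarith [hQd q hq, hJ q (hQ hq)]
  set X := U.filter fun v => (1 - β) * m ≤ dg (G ⊔ H) Q v with hX
  have hXU : X ⊆ U := filter_subset _ _
  have hQX : Q ⊆ X := fun q hq => mem_filter.2 ⟨hQ hq, le_trans (by nlinarith) (hQd q hq)⟩
  have hXo : ∀ x ∈ X, (dg (G ⊔ H) (U \ X) x : ℝ) ≤ β * m := by
    intro x hx
    have h1 : (dg (G ⊔ H) (U \ X) x : ℝ) + dg (G ⊔ H) X x = dg (G ⊔ H) U x := by
      exact_mod_cast dg_sdiff hXU
    have h2 : (dg (G ⊔ H) Q x : ℝ) ≤ dg (G ⊔ H) X x := by exact_mod_cast dg_mono hQX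
    linarith [(mem_filter.1 hx).2, hJ x (hXU hx)]
  have hQo' : ∀ q ∈ Q, (dg (G ⊔ H) (U \ X) q : ℝ) ≤ κ * m := by
    intro q hq
    refine le_trans ?_ (hQo q hq)
    exact_mod_cast dg_mono (sdiff_subset_sdiff Subset.rfl hQX)
  by_cases hA : ∀ S ⊆ X, Valid k G H S → S.card ≤ k + 1
  · have hin := inner (m := m) (by omega : 4 * k + 1 ≤ c) hg1 hg2 hA
    set C : ℝ := ∑ x ∈ X, (dg (G ⊔ H) (U \ X) x : ℝ) with hC
    have hC0 : 0 ≤ C := sum_nonneg fun _ _ => Nat.cast_nonneg _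
    set P := Q.filter fun q => dg (G ⊔ H) (U \ X) q * (β * m / 4) ≤ C with hP
    have hPQ : P ⊆ Q := filter_subset _ _
    have hPc : (Q.card : ℝ) - β * m / 4 ≤ P.card := by
      have h1 : ((Q \ P).card : ℝ) + P.card = Q.card := by
        exact_mod_cast card_sdiff_add_card_eq_card hPQ
      have h2 : ∀ q ∈ Q \ P, C < dg (G ⊔ H) (U \ X) q * (β * m / 4) := by
        intro q hq
        rw [mem_sdiff] at hq
        exact not_le.1 fun h => hq.2 (mem_filter.2 ⟨hq.1, h⟩)
      have h3 : ∑ q ∈ Q \ P, (dg (G ⊔ H) (U \ X) q : ℝ) ≤ C :=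
        sum_le_sum_of_subset_of_nonneg (sdiff_subset.trans hQX) fun _ _ _ => Nat.cast_nonneg _
      have h4 := card_mul_le_sum fun q hq => (h2 q hq).le
      rw [← sum_mul] at h4
      rcases (Q \ P).eq_empty_or_nonempty with h | ⟨q, hq⟩
      · rw [h, card_empty] at h1
        push_cast at h1
        nlinarith
      · have h5 : (dg (G ⊔ H) (U \ X) q : ℝ) ≤ C :=
          single_le_sum (f := fun x => (dg (G ⊔ H) (U \ X) x : ℝ))
            (fun _ _ => Nat.cast_nonneg _) (hQX (mem_sdiff.1 hq).1)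
        have h6 : 0 < C := by
          by_contra h
          have h7 := h2 q hq
          have : (dg (G ⊔ H) (U \ X) q : ℝ) * (β * m / 4) ≤ 0 :=
            mul_nonpos_of_nonpos_of_nonneg (by linarith) (by positivity)
          linarith
        have h7 : ((Q \ P).card : ℝ) * C ≤ (β * m / 4) * C := by
          refine h4.trans ?_
          rw [mul_comm]
          exact mul_le_mul_of_nonneg_left h3 (by positivity)
        have := le_of_mul_le_mul_right h7 h6
        linarith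
    have hPm : (P.card : ℝ) ≤ m := le_trans (by exact_mod_cast card_le_card hPQ) hQm'
    have hh : ∀ x ∈ P, (dg H P x : ℝ) ≤ κ * m := fun x hx =>
      le_trans (by exact_mod_cast dg_mono (hPQ.trans hQ)) (hQH x (hPQ hx))
    have hLt : (L : ℝ) * (κ * m + 1) ≤ β * m / 4 := by nlinarith
    have hPt : β * m / 4 < P.card := by nlinarith
    have hmiss : ∀ w ∈ U \ X, β * m / 4 + β / 4 * P.card ≤ (P \ nb (G ⊔ H) P w).card := by
      intro w hw
      rw [mem_sdiff] at hw
      have h1 : (dg (G ⊔ H) Q w : ℝ) < (1 - β) * m :=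
        not_le.1 fun h => hw.2 (mem_filter.2 ⟨hw.1, h⟩)
      have h2 : ((P \ nb (G ⊔ H) P w).card : ℝ) + dg (G ⊔ H) P w = P.card := by
        exact_mod_cast card_sdiff_add_card_eq_card nb_subset
      have h3 : (dg (G ⊔ H) P w : ℝ) ≤ dg (G ⊔ H) Q w := by exact_mod_cast dg_mono hPQ
      nlinarith
    obtain ⟨Y0, a1, -, a3, a4, -⟩ := select (J := G ⊔ H) (H := H) (W := ∅) (Y0 := ∅) (b := β / 4)
      hh (by positivity) hLt hPt (by positivity) (by linarith) (by simp) (empty_subset _)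
      (by simp) (k + 1) (by simp [hL])
    rw [card_empty, zero_add] at a3
    set W0 := Y0.biUnion (nb (G ⊔ H) (U \ X)) with hW0
    have hW0s : W0 ⊆ U \ X := biUnion_subset.2 fun _ _ => nb_subset
    obtain ⟨Y, b1, b2, b3, b4, b5⟩ := select (J := G ⊔ H) (H := H) (W := W0) (Y0 := Y0)
      (b := β / 4) hh (by positivity) hLt hPt (by positivity) (by linarith)
      (fun w hw => hmiss w (hW0s hw)) a1 a4 j (by omega)
    have hout : ∀ x ∈ P, (dg (G ⊔ H) (U \ X) x : ℝ) ≤ C / (β * m / 4) := fun x hx =>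
      (le_div_iff₀ (by positivity)).2 (mem_filter.1 hx).2
    have hW0c := card_biUnion_nb_le' fun x hx => hout x (a1 hx)
    rw [← hW0, a3] at hW0c
    set Bad := W0.filter fun w => (Y \ nb (G ⊔ H) Y w).card ≤ k with hBad
    have hBc : (Bad.card : ℝ) * (1 / 2) ^ k ≤ (1 - β / 4 / 2) ^ j * W0.card := by
      refine le_trans (card_mul_le_sum (f := fun w => (1 / 2 : ℝ) ^ (Y \ nb (G ⊔ H) Y w).card)
        fun w hw => pow_le_pow_of_le_one (by norm_num) (by norm_num) (mem_filter.1 hw).2) ?_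
      exact le_trans (sum_le_sum_of_subset_of_nonneg (filter_subset _ _)
        fun _ _ _ => by positivity) b5
    have hB2 : 2 * m * (Bad.card : ℝ) ≤ C := by
      have h1 : (Bad.card : ℝ) ≤ 2 ^ k * ((1 - β / 4 / 2) ^ j * W0.card) := by
        rw [one_div, inv_pow, ← div_eq_mul_inv, div_le_iff₀ (by positivity)] at hBc
        linarith
      have h2 : (0 : ℝ) ≤ (1 - β / 4 / 2) ^ j := pow_nonneg (by linarith) _
      have h3 : (W0.card : ℝ) * (β * m) ≤ 4 * (k + 1) * C := by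
        have : ((k + 1 : ℕ) : ℝ) * (C / (β * m / 4)) * (β * m) = 4 * (k + 1) * C := by
          push_cast
          field_simp
        rw [← this]
        exact mul_le_mul_of_nonneg_right hW0c (by positivity)
      have h4 : β * (2 * m * (Bad.card : ℝ)) ≤ β * C := by
        calc β * (2 * m * (Bad.card : ℝ))
            ≤ β * (2 * m * (2 ^ k * ((1 - β / 4 / 2) ^ j * W0.card))) := by gcongr
          _ = 2 * 2 ^ k * (1 - β / 4 / 2) ^ j * (W0.card * (β * m)) := by ring
          _ ≤ 2 * 2 ^ k * (1 - β / 4 / 2) ^ j * (4 * (k + 1) * C) := by gcongr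
          _ = (1 - β / 4 / 2) ^ j * (8 * (k + 1) * 2 ^ k) * C := by ring
          _ ≤ β * C := by gcongr
      exact le_of_mul_le_mul_left h4 hβ0
    have hYL : Y.card = L := by omega
    have hW1 := card_biUnion_nb_le' fun x hx => hout x (b1 hx)
    have hW2 := card_biUnion_nb_le' fun x hx => hQo' x (hPQ (b1 hx))
    rw [hYL] at hW1 hW2
    refine redB (Y := Y) (Bad := Bad) hXU ((b1.trans hPQ).trans hQX) (by omega) b4 (by omega)
      (fun w hw => ?_) hin ?_ ih
    · rw [mem_sdiff] at hw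
      by_cases h : w ∈ W0
      · exact not_le.1 fun h' => hw.2 (mem_filter.2 ⟨h, h'⟩)
      · rw [← a3]
        refine card_le_card fun y hy => mem_sdiff.2 ⟨b2 hy, fun h' => h ?_⟩
        exact mem_biUnion.2 ⟨y, hy, mem_nb.2 ⟨hw.1, (mem_nb.1 h').2.symm⟩⟩
    · have h1 : (c : ℝ) * (((Y.biUnion (nb (G ⊔ H) (U \ X))).card : ℝ) *
          (Y.biUnion (nb (G ⊔ H) (U \ X))).card) ≤ C := by
        calc _ ≤ (c : ℝ) * ((L * (C / (β * m / 4))) * (L * (κ * m))) := by gcongr
          _ = κ * (8 * c * (L : ℝ) ^ 2) * C / (2 * β) := by field_simp; ring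
          _ = C / 2 := by rw [hκ]; field_simp
          _ ≤ C := by linarith
      have h2 : 2 * m * (Bad.card : ℝ) + (c : ℝ) * (((Y.biUnion (nb (G ⊔ H) (U \ X))).card : ℝ) *
          (Y.biUnion (nb (G ⊔ H) (U \ X))).card) ≤ 2 * C := by linarith
      rw [hC] at h2
      exact_mod_cast h2
  · push Not at hA
    obtain ⟨S0, s1, s2, s3⟩ := hA
    obtain ⟨S, t1, t2⟩ := exists_subset_card_eq (show k + 2 ≤ S0.card by omega)
    refine redA hXU (t1.trans s1) (s2.mono t1) t2 ?_ fun U' h => ih U' h H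
    have hN := card_biUnion_nb_le' fun x hx => hXo x (s1 (t1 hx))
    rw [t2] at hN
    have hXc : (X.card : ℝ) ≤ (1 + 2 * κ) * m := by
      have h1 : ((X \ Q).card : ℝ) + Q.card = X.card := by
        exact_mod_cast card_sdiff_add_card_eq_card hQX
      have h2 := card_mul_le_sum (A := X \ Q) (f := fun v => (dg (G ⊔ H) Q v : ℝ))
        fun v hv => (mem_filter.1 (mem_sdiff.1 hv).1).2
      have h3 : ∑ v ∈ X \ Q, (dg (G ⊔ H) Q v : ℝ) = ∑ q ∈ Q, (dg (G ⊔ H) (X \ Q) q : ℝ) := by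
        exact_mod_cast sum_dg_comm (G ⊔ H) (X \ Q) Q
      have h4 := sum_le_card_mul (A := Q) (f := fun q => (dg (G ⊔ H) (X \ Q) q : ℝ)) (x := κ * m)
        fun q hq => le_trans (by exact_mod_cast dg_mono (sdiff_subset_sdiff hXU Subset.rfl))
          (hQo q hq)
      have h5 : (Q.card : ℝ) * (κ * m) ≤ m * (κ * m) := by gcongr
      have h6 : (0 : ℝ) ≤ (X \ Q).card := Nat.cast_nonneg _
      have h7 : ((X \ Q).card : ℝ) * (m / 2) ≤ (X \ Q).card * ((1 - β) * m) := by
        gcongr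
        nlinarith
      have h8 : m * ((X \ Q).card : ℝ) ≤ m * (2 * κ * m) := by linarith
      have := le_of_mul_le_mul_left h8 hm0
      linarith
    have hE : (1 - 3 * κ) * (m : ℝ) ^ 2 ≤ E2 G X := by
      have h1 : (E2 G Q : ℝ) ≤ E2 G X := by exact_mod_cast E2_mono hQX
      have h2 := card_mul_le_sum hQG
      have h3 : (E2 G Q : ℝ) = ∑ q ∈ Q, (dg G Q q : ℝ) := by simp [E2]
      have h4 : (1 - κ) * m * ((1 - 2 * κ) * m) ≤ Q.card * ((1 - 2 * κ) * m) :=
        mul_le_mul_of_nonneg_right hQc (mul_nonneg (by linarith) hm0.le)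
      nlinarith [mul_nonneg (sq_nonneg κ) (sq_nonneg (m : ℝ))]
    have h1 : 2 * ((k : ℝ) + 1) * m * (X.card + (S.biUnion (nb (G ⊔ H) (U \ X))).card)
        ≤ (k + 1) * E2 G X + (k + 2) * (m * (m + 1) + g) := by
      push_cast at hN
      have h2 : 7 * κ * (k + 1) ≤ 1 / 2 := by nlinarith
      have hg0 : (0 : ℝ) ≤ g := Nat.cast_nonneg _
      calc _ ≤ 2 * ((k : ℝ) + 1) * m * ((1 + 2 * κ) * m + (k + 2) * (β * m)) := by gcongr
        _ = (2 * (k + 1) + 4 * κ * (k + 1) + β * (4 * (k + 1) * (k + 2)) / 2) * (m : ℝ) ^ 2 := by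
            ring
        _ ≤ ((k + 1) * (1 - 3 * κ) + (k + 2)) * (m : ℝ) ^ 2 := by
            rw [hβ]
            exact mul_le_mul_of_nonneg_right (by linarith) (sq_nonneg _)
        _ = (k + 1) * ((1 - 3 * κ) * (m : ℝ) ^ 2) + (k + 2) * (m : ℝ) ^ 2 := by ring
        _ ≤ _ := by
            gcongr
            nlinarith
    exact_mod_cast h1

theorem remove (k c : ℕ) (hc : 4 * k + 2 ≤ c) : ∃ κ : ℝ, 0 < κ ∧ ∃ m0 : ℕ, ∀ m ≥ m0, ∀ g : ℕ,
    k * (k + 1) ≤ g → (Odd k → Even m ∧ m ≤ g) → ∀ (V : Type) [DecidableEq V]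
      (G H : SimpleGraph V) (U Q : Finset V), Q ⊆ U → Q.Nonempty → Q.card ≤ m →
      (∀ q ∈ Q, (1 - κ) * m ≤ dg (G ⊔ H) Q q) → (∀ v ∈ U, dg G U v + c * dg H U v ≤ m) →
      (∀ U' ⊂ U, ∀ H', Ineq k m (m * (m + 1) + g) c G H' U') →
      Ineq k m (m * (m + 1) + g) c G H U := by
  set β : ℝ := 1 / (4 * (k + 1) * (k + 2)) with hβ
  have hβ0 : 0 < β := by positivity
  have hc0 : (0 : ℝ) < c := by exact_mod_cast (show 0 < c by omega)
  obtain ⟨j, hj⟩ := exists_pow_lt_of_lt_one (x := β / (8 * (k + 1) * 2 ^ k))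
    (y := 1 - β / 4 / 2) (by positivity) (by linarith)
  refine ⟨β / (8 * c * ((k + 1 + j : ℕ) : ℝ) ^ 2), by positivity,
    ⌈8 * ((k + 1 + j : ℕ) : ℝ) / β⌉₊, fun m hm g h1 h2 V _ G H U Q q1 q2 q3 q4 q5 ih => ?_⟩
  refine remove_core (j := j) hc hβ0 (by rw [hβ]; field_simp) (by positivity)
    (by field_simp) ((lt_div_iff₀ (by positivity)).1 hj).le ?_ h1 h2 q1 q2 q3 q4 q5 ih
  have := Nat.ceil_le.1 hm
  rw [div_le_iff₀ hβ0] at this
  linarith

end Pool.Agent.P.MP_39eed7_co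
end

-- part Pool.Agent.P.MP_39eed7_co.Struct
section

/-! A near-extremal configuration contains a near-clique. -/

set_option autoImplicit false
set_option linter.unusedSectionVars false

open Finset

namespace Pool.Agent.P.MP_39eed7_co

variable {V : Type} [DecidableEq V] {k : ℕ} {G H : SimpleGraph V}

open Classical in
/-- either a clique or most vertices are clean -/
lemma clean_or {c : ℕ} (hc : k + 2 ≤ c) {U : Finset V} {m : ℕ} {κ τ : ℝ} (h0 : 0 < κ)
    (h1 : κ ≤ 1) (hm : 2 ≤ κ * m) (hd : ∀ v ∈ U, dg G U v + c * dg H U v ≤ m)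
    (hτ : m * (al k G H U : ℝ) + (k + 1) * al k G H U ≤ (k + 1) * U.card + τ) :
    (∃ Q ⊆ U, Q.Nonempty ∧ Q.card ≤ m ∧ ∀ q ∈ Q, (1 - κ) * m ≤ dg (G ⊔ H) Q q) ∨
    ∃ S ⊆ U, Valid k G H S ∧ m * ((al k G H U : ℝ) - S.card) ≤ τ ∧
      (U.card : ℝ) ≤ (U.filter (Clean k G H S)).card + al k G H U + τ * (1 + 2 * (k + 2) / κ) := by
  obtain ⟨S, hS, hv, hw, hq⟩ := exists_fav k G H U
  have hm0 : (0 : ℝ) < m := by
    have : (0 : ℝ) ≤ m := Nat.cast_nonneg _
    nlinarith
  set Gd := U.filter (Good k G H S) with hGd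
  have g1 : Gd ⊆ U \ S := fun w h =>
    mem_sdiff.2 ⟨(mem_filter.1 h).1, (mem_filter.1 h).2.1⟩
  by_cases hA : ∃ u ∈ S, dg G S u = k ∧ (1 - κ / 2) * m ≤ dg G Gd u
  · obtain ⟨u, hu, u1, u2⟩ := hA
    refine Or.inl ⟨nb G Gd u, nb_subset.trans (filter_subset _ _), ?_, ?_, fun q hq' => ?_⟩
    · rw [← card_pos]
      have : (0 : ℝ) < dg G Gd u := lt_of_lt_of_le (mul_pos (by linarith) hm0) u2
      exact_mod_cast this
    · exact (dg_mono (filter_subset _ _)).trans (le_trans (Nat.le_add_right _ _) (hd u (hS hu)))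
    · have e1 : (nb G Gd u).erase q ⊆ nb (G ⊔ H) (nb G Gd u) q := by
        intro x hx
        rw [mem_erase] at hx
        have a := mem_nb.1 hq'
        have b := mem_nb.1 hx.2
        exact mem_nb.2 ⟨hx.2, hq u hu u1 q (mem_filter.1 a.1).1 x (mem_filter.1 b.1).1
          (mem_filter.1 a.1).2 (mem_filter.1 b.1).2 a.2 b.2 hx.1.symm⟩
      have e2 : dg G Gd u ≤ dg (G ⊔ H) (nb G Gd u) q + 1 := by
        have := card_le_card e1
        have h2 := card_erase_add_one hq'
        unfold dg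
        omega
      have e3 : (dg G Gd u : ℝ) ≤ dg (G ⊔ H) (nb G Gd u) q + 1 := by exact_mod_cast e2
      linarith
  push Not at hA
  have c1 : ((U \ S).card : ℝ) + S.card = U.card := by
    exact_mod_cast card_sdiff_add_card_eq_card hS
  have c2 : (((U \ S) \ Gd).card : ℝ) + Gd.card = (U \ S).card := by
    exact_mod_cast card_sdiff_add_card_eq_card g1
  have c3 : (S.card : ℝ) ≤ al k G H U := by exact_mod_cast le_al hS hv
  have c4 : (k + 1) * (U \ S).card + ((U \ S) \ Gd).card ≤ m * S.card := by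
    calc _ = ∑ w ∈ U \ S, (k + 1 + if w ∈ (U \ S) \ Gd then 1 else 0) := by
          rw [sum_add_distrib, ← card_filter, filter_mem_eq_inter,
            inter_eq_right.2 sdiff_subset, sum_const, smul_eq_mul, mul_comm]
      _ ≤ ∑ w ∈ U \ S, (dg G S w + c * dg H S w) := by
          refine sum_le_sum fun w h => ?_
          have e1 := hw w h
          rcases Nat.eq_zero_or_pos (dg H S w) with e | e
          · split_ifs with h'
            · have : dg G S w ≠ k + 1 := fun e' => (mem_sdiff.1 h').2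
                (mem_filter.2 ⟨(mem_sdiff.1 h).1, (mem_sdiff.1 h).2, e', e⟩)
              rw [e] at e1 ⊢
              omega
            · rw [e] at e1 ⊢
              omega
          · have : c ≤ c * dg H S w := Nat.le_mul_of_pos_right _ e
            split_ifs <;> omega
      _ = ∑ u ∈ S, (dg G (U \ S) u + c * dg H (U \ S) u) := by
          rw [sum_add_distrib, sum_add_distrib, ← mul_sum, ← mul_sum, sum_dg_comm G,
            sum_dg_comm H]
      _ ≤ ∑ _u ∈ S, m := sum_le_sum fun u hu => le_trans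
          (add_le_add (dg_mono sdiff_subset) (Nat.mul_le_mul_left _ (dg_mono sdiff_subset)))
          (hd u (hS hu))
      _ = _ := by simp [mul_comm]
  have c5 : ((k : ℝ) + 1) * (U \ S).card + ((U \ S) \ Gd).card ≤ m * S.card := by
    exact_mod_cast c4
  set Sat := S.filter fun u => dg G S u = k with hSat
  have s1 : Sat ⊆ S := filter_subset _ _
  have c6 : ((S \ Sat).card : ℝ) + Sat.card = S.card := by
    exact_mod_cast card_sdiff_add_card_eq_card s1
  have c7 : ((k : ℝ) + 1) * Gd.card ≤ (S \ Sat).card * m + Sat.card * ((1 - κ / 2) * m) := by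
    have e1 : ∑ u ∈ S, (dg G Gd u : ℝ) = ∑ w ∈ Gd, (dg G S w : ℝ) := by
      exact_mod_cast sum_dg_comm G S Gd
    have e2 : (Gd.card : ℝ) * (k + 1) ≤ ∑ w ∈ Gd, (dg G S w : ℝ) :=
      card_mul_le_sum fun w h => by rw [(mem_filter.1 h).2.2.1]; push_cast; rfl
    have e3 := sum_le_card_mul (A := Sat) (f := fun u => (dg G Gd u : ℝ))
      fun u h => (hA u (s1 h) (mem_filter.1 h).2).le
    have e4 := sum_le_card_mul (A := S \ Sat) (f := fun u => (dg G Gd u : ℝ)) (x := m)
      fun u h => by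
        exact_mod_cast (dg_mono (filter_subset _ _)).trans
          (le_trans (Nat.le_add_right _ _) (hd u (hS (mem_sdiff.1 h).1)))
    rw [← sum_sdiff s1] at e1
    linarith
  have c8 : (Gd.card : ℝ) ≤ (U.filter (Clean k G H S)).card + Sat.card * m := by
    have e1 : Gd ⊆ U.filter (Clean k G H S) ∪ Sat.biUnion (nb G U) := by
      intro w h
      rw [mem_filter] at h
      by_contra h'
      rw [mem_union, not_or] at h'
      refine h'.1 (mem_filter.2 ⟨h.1, h.2, fun s hs a => ?_⟩)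
      have e2 := hv.1 s hs
      have e3 : dg G S s ≠ k := fun e =>
        h'.2 (mem_biUnion.2 ⟨s, mem_filter.2 ⟨hs, e⟩, mem_nb.2 ⟨h.1, a.symm⟩⟩)
      omega
    have e2 := (card_le_card e1).trans ((card_union_le _ _).trans (Nat.add_le_add_left
      (card_biUnion_nb_le fun x hx => le_trans (Nat.le_add_right _ _) (hd x (hS (s1 hx)))) _))
    exact_mod_cast e2
  have n1 : (0 : ℝ) ≤ ((U \ S) \ Gd).card := Nat.cast_nonneg _
  have k0 : (0 : ℝ) ≤ k := Nat.cast_nonneg _
  have d1 : ((k : ℝ) + 1) * S.card ≤ (k + 1) * al k G H U := by gcongr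
  have d2 : (m : ℝ) * S.card ≤ m * al k G H U := by gcongr
  have d3 : m * (al k G H U : ℝ) ≤ (k + 1) * (U \ S).card + τ := by nlinarith
  have d4 : (((U \ S) \ Gd).card : ℝ) ≤ τ := by linarith
  have d5 : ((k : ℝ) + 1) * ((U \ S) \ Gd).card ≤ (k + 1) * τ := by gcongr
  have d6 : κ * ((Sat.card : ℝ) * m) ≤ 2 * (k + 2) * τ := by nlinarith
  have d7 : (Sat.card : ℝ) * m ≤ τ * (2 * (k + 2) / κ) := by
    rw [← mul_div_assoc, le_div_iff₀ h0]
    linarith
  exact Or.inr ⟨S, hS, hv, by linarith, by linarith⟩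

theorem struct (k c : ℕ) (hc : k + 2 ≤ c) {κ C : ℝ} (h0 : 0 < κ) (h1 : κ ≤ 1) :
    ∃ ε : ℝ, 0 < ε ∧ ∃ m0 : ℕ, ∀ m ≥ m0, ∀ (V : Type) [DecidableEq V] (G H : SimpleGraph V)
      (U : Finset V), U.Nonempty → (∀ v ∈ U, dg G U v + c * dg H U v ≤ m) →
      m * (al k G H U : ℝ) ≤ (1 + ε) * (k + 1) * U.card → (E2 H U : ℝ) ≤ C * U.card →
      ∃ Q ⊆ U, Q.Nonempty ∧ Q.card ≤ m ∧ ∀ q ∈ Q, (1 - κ) * m ≤ dg (G ⊔ H) Q q := by
  classical
  set δ := κ / 5 with hδ
  have δ0 : 0 < δ := by positivity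
  set D : ℝ := (2 * k + 2) * (k + 5) with hD
  set B : ℝ := 1 + 2 * (k + 1) * (1 + 2 * (k + 2) / κ + D) with hB
  have B1 : 1 ≤ B := le_add_of_nonneg_right (by positivity)
  set ε := δ / B with hε
  have ε0 : 0 < ε := by positivity
  have ε1 : ε * B = δ := by rw [hε]; field_simp
  have ε2 : ε ≤ δ := by nlinarith
  set h := ⌈C / δ⌉₊ with hh
  set M := (2 * k + 2) * (4 * (k + 1) ^ 2) ^ k with hM
  obtain ⟨m1, hm1⟩ := kst δ0 (by linarith) (M * (h + 1) + 1)
  refine ⟨ε, ε0, ⌈m1⌉₊ + ⌈2 / κ⌉₊ + ⌈(1 + ε) * (k + 1) / ε⌉₊,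
    fun m hm V _ G H U hU hd ha hE => ?_⟩
  have m2 : m1 ≤ m := Nat.ceil_le.1 (by omega)
  have m3 : 2 ≤ κ * m := by
    have := Nat.ceil_le.1 (show ⌈2 / κ⌉₊ ≤ m by omega)
    rw [div_le_iff₀ h0] at this
    linarith
  have m4 : (1 + ε) * (k + 1) ≤ m * ε :=
    (div_le_iff₀ ε0).1 (Nat.ceil_le.1 (show _ ≤ m by omega))
  have m0 : (0 : ℝ) < m := by
    have : (0 : ℝ) ≤ m := Nat.cast_nonneg _
    nlinarith
  have n0 : (0 : ℝ) < U.card := by exact_mod_cast card_pos.2 hU
  have k0 : (0 : ℝ) ≤ k := Nat.cast_nonneg _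
  have a1 : (al k G H U : ℝ) ≤ ε * U.card := by
    refine le_of_mul_le_mul_left (ha.trans ?_) m0
    rw [← mul_assoc]
    gcongr
  have a2 : ((k : ℝ) + 1) * al k G H U ≤ (k + 1) * (ε * U.card) := by gcongr
  rcases clean_or (τ := 2 * ε * (k + 1) * U.card) hc h0 h1 m3 hd (by linarith) with
    hQ | ⟨S0, s1, s2, s3, s4⟩
  · exact hQ
  have hd' : ∀ v ∈ U, dg (G ⊔ H) U v ≤ m := fun v hv => dg_sup_le.trans (le_trans
    (Nat.add_le_add_left (Nat.le_mul_of_pos_left _ (by omega)) _) (hd v hv))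
  obtain ⟨S, t1, t2, t3, t4⟩ := stable (by exact_mod_cast m0) hd' s1 s2
  have t5 : ((U.filter (Clean k G H S0)).card : ℝ) + D * m * S0.card ≤
      (U.filter (Clean k G H S)).card + D * m * al k G H U := by
    rw [hD]
    exact_mod_cast t3
  have t6 : D * (m * ((al k G H U : ℝ) - S0.card)) ≤ D * (2 * ε * (k + 1) * U.card) := by gcongr
  have t7 : (1 - δ) * U.card ≤ (U.filter (Clean k G H S)).card := by
    rw [← ε1, hB]
    linarith
  set Hi := U.filter fun v => h < dg H U v with hHi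
  have i1 : (Hi.card : ℝ) ≤ δ * U.card := by
    have e1 : (Hi.card : ℝ) * (h + 1) ≤ ∑ v ∈ Hi, (dg H U v : ℝ) :=
      card_mul_le_sum fun v hv => by exact_mod_cast (mem_filter.1 hv).2
    have e2 : ∑ v ∈ Hi, (dg H U v : ℝ) ≤ E2 H U := by
      exact_mod_cast sum_le_sum_of_subset (f := dg H U) (filter_subset _ U)
    have e3 : C ≤ h * δ := (div_le_iff₀ δ0).1 (Nat.le_ceil _)
    refine le_of_mul_le_mul_right (e1.trans (e2.trans (hE.trans ?_))) (by positivity)
    nlinarith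
  set Cl := U.filter (Clean k G H S) \ Hi with hCl
  have l1 : ∀ w ∈ Cl, w ∈ U ∧ Clean k G H S w ∧ dg H U w ≤ h := by
    intro w hw
    rw [mem_sdiff, mem_filter] at hw
    exact ⟨hw.1.1, hw.1.2, not_lt.1 fun e => hw.2 (mem_filter.2 ⟨hw.1.1, e⟩)⟩
  have l2 : (1 - 2 * δ) * U.card ≤ Cl.card := by
    have e1 : (U.filter (Clean k G H S)).card ≤ Cl.card + Hi.card := card_le_card_sdiff_add_card
    have e2 : ((U.filter (Clean k G H S)).card : ℝ) ≤ Cl.card + Hi.card := by exact_mod_cast e1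
    linarith
  obtain ⟨u, hu, u1⟩ : ∃ u ∈ S, (1 - 3 * δ) * m ≤ dg G Cl u := by
    by_contra hn
    push Not at hn
    have e1 : ∑ u ∈ S, (dg G Cl u : ℝ) = ∑ w ∈ Cl, (dg G S w : ℝ) := by
      exact_mod_cast sum_dg_comm G S Cl
    have e2 : (Cl.card : ℝ) * (k + 1) ≤ ∑ w ∈ Cl, (dg G S w : ℝ) :=
      card_mul_le_sum fun w h => by rw [(l1 w h).2.1.1.2.1]; push_cast; rfl
    have e3 := sum_le_card_mul (A := S) (f := fun u => (dg G Cl u : ℝ)) fun u h => (hn u h).le
    have e4 : (S.card : ℝ) ≤ al k G H U := by exact_mod_cast le_al t1 t2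
    have e5 : 0 ≤ 1 - 3 * δ := by linarith
    have e6 : (S.card : ℝ) * ((1 - 3 * δ) * m) ≤ (1 - 3 * δ) * ((1 + δ) * (k + 1) * U.card) := by
      calc _ ≤ (al k G H U : ℝ) * ((1 - 3 * δ) * m) := by gcongr
        _ = (1 - 3 * δ) * (m * al k G H U) := by ring
        _ ≤ (1 - 3 * δ) * ((1 + ε) * (k + 1) * U.card) := by gcongr
        _ ≤ _ := by gcongr
    have e7 : (1 - 2 * δ) * U.card * (k + 1) ≤ (Cl.card : ℝ) * (k + 1) := by gcongr
    have e8 : 0 < δ ^ 2 * ((k + 1) * U.card) := by positivity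
    nlinarith
  set Q0 := nb G Cl u with hQ0
  have q1 : Q0 ⊆ U := fun x hx => (l1 x (nb_subset hx)).1
  have q2 : Q0.card ≤ m := (dg_mono fun x hx => (l1 x hx).1).trans
    (le_trans (Nat.le_add_right _ _) (hd u (t1 hu)))
  have q3 : (1 - 3 * δ) * m ≤ Q0.card := u1
  set P := Q0.filter fun p => dg (G ⊔ H) Q0 p + δ * m ≤ Q0.card with hP
  have p1 : P ⊆ Q0 := filter_subset _ _
  have p2 : ((Q0 \ P).card : ℝ) + P.card = Q0.card := by
    exact_mod_cast card_sdiff_add_card_eq_card p1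
  by_cases hP' : δ * m ≤ P.card
  · obtain ⟨A, a3, B, b3, d, a4, b4, n⟩ := hm1 m m2 V (G ⊔ H) Q0 P p1 (by exact_mod_cast q2) hP'
      fun p hp => (mem_filter.1 hp).2
    simp only [SimpleGraph.sup_adj, not_or] at n
    obtain ⟨A', a5, a6, a7⟩ := exists_indep H h M A
      (fun x hx => (dg_mono (a3.trans q1)).trans (l1 x (nb_subset (a3 hx))).2.2) a4
    obtain ⟨B', b5, b6, b7⟩ := exists_indep H h M B
      (fun x hx => (dg_mono (b3.trans q1)).trans (l1 x (nb_subset (b3 hx))).2.2) b4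
    have e1 : A' ∪ B' ⊆ Q0 := union_subset (a5.trans a3) (b5.trans b3)
    refine (t4 u hu A' B' (e1.trans q1)
      (fun x hx => ⟨(l1 x (nb_subset (e1 hx))).2.1, (mem_nb.1 (e1 hx)).2.symm⟩) (d.mono a5 b5)
      (fun x hx y hy => ?_) (fun x hx y hy => (n x (a5 hx) y (b5 hy)).1)
      (by omega) (by omega)).elim
    rcases mem_union.1 hx with hx | hx <;> rcases mem_union.1 hy with hy | hy
    · exact a7 x hx y hy
    · exact (n x (a5 hx) y (b5 hy)).2
    · exact fun a => (n y (a5 hy) x (b5 hx)).2 a.symm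
    · exact b7 x hx y hy
  · refine ⟨Q0 \ P, sdiff_subset.trans q1, ?_, (card_le_card sdiff_subset).trans q2,
      fun q hq => ?_⟩
    · rw [← card_pos]
      have : (0 : ℝ) < (Q0 \ P).card := by nlinarith
      exact_mod_cast this
    · rw [mem_sdiff] at hq
      have e1 := not_le.1 fun e => hq.2 (mem_filter.2 ⟨hq.1, e⟩)
      have e2 : (dg (G ⊔ H) (Q0 \ P) q : ℝ) + dg (G ⊔ H) P q = dg (G ⊔ H) Q0 q := by
        exact_mod_cast dg_sdiff p1
      have e3 : (dg (G ⊔ H) P q : ℝ) ≤ P.card := by exact_mod_cast dg_le_card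
      have e4 : κ = 5 * δ := by rw [hδ]; ring
      rw [e4]
      linarith

end Pool.Agent.P.MP_39eed7_co
end

-- part Pool.Agent.P.MP_39eed7_co.Main
section

/-! The sharp inequality for large `m` and the extremal graphs. -/

set_option autoImplicit false
set_option linter.unusedSectionVars false

open Finset

namespace Pool.Agent.P.MP_39eed7_co

variable {V : Type} [DecidableEq V] {k : ℕ} {G H : SimpleGraph V}

lemma fail_bound {U : Finset V} {m g t : ℕ} (ht : t ≤ m)
    (h : ¬ Ineq k m (m * (m + 1) + g) (4 * k + 2) G H U) :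
    ((k : ℝ) + 1) * E2 H U + al k G H U * (2 * m * t - t ^ 2 - 2 * k * m) ≤
      2 * (k + 1) * t * U.card := by
  obtain ⟨m', rfl⟩ := Nat.exists_eq_add_of_le ht
  have h1 := crude k G H m' U
  unfold Ineq at h h1
  have h2 : 2 * ((k : ℝ) + 1) * m' * U.card ≤ (k + 1) * (E2 G U + (k + 1) * E2 H U) +
      al k G H U * (m' * (m' + 1) + 2 * k * m') := by exact_mod_cast h1
  have h3 : ((k : ℝ) + 1) * (E2 G U + (4 * k + 2) * E2 H U) +
      al k G H U * ((t + m') * (t + m' + 1) + g) ≤ 2 * (k + 1) * (t + m') * U.card := by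
    exact_mod_cast (not_le.1 h).le
  have e1 : (0 : ℝ) ≤ (k + 1) * k * E2 H U := by positivity
  have e2 : (0 : ℝ) ≤ al k G H U * (g + t + 2 * k * t) := by positivity
  push_cast
  nlinarith

theorem sharp (k : ℕ) : ∃ m0 : ℕ, ∀ m ≥ m0, ∀ g : ℕ, k * (k + 1) ≤ g →
    (Odd k → Even m ∧ m ≤ g) → ∀ (V : Type) [DecidableEq V] (G : SimpleGraph V) (U : Finset V)
      (H : SimpleGraph V), Ineq k m (m * (m + 1) + g) (4 * k + 2) G H U := by
  rcases Nat.eq_zero_or_pos k with rfl | hk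
  · refine ⟨0, fun m _ g _ _ V _ G U H => ?_⟩
    have := crude 0 G H m U
    unfold Ineq at this ⊢
    nlinarith [Nat.zero_le (E2 H U), Nat.zero_le (al 0 G H U * g)]
  obtain ⟨κ, h0, m1, hm1⟩ := remove k (4 * k + 2) le_rfl
  obtain ⟨ε0, e0, m2, hm2⟩ := struct k (4 * k + 2) (by omega) (κ := min κ 1) (C := 4 * k)
    (lt_min h0 one_pos) (min_le_right _ _)
  set ε := min ε0 1 with hε
  have e1 : 0 < ε := lt_min e0 one_pos
  have e2 : ε ≤ 1 := min_le_right _ _
  have e3 : ε ≤ ε0 := min_le_left _ _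
  set t := ⌈4 * k / ε⌉₊ with ht
  have k1 : (1 : ℝ) ≤ k := by exact_mod_cast hk
  have t1 : 4 * k ≤ t * ε := (div_le_iff₀ e1).1 (Nat.le_ceil _)
  have t0 : (0 : ℝ) < t := by
    have : (0 : ℝ) ≤ t := Nat.cast_nonneg _
    nlinarith
  refine ⟨m1 + m2 + t + 2 * k + ⌈2 * t / ε⌉₊, fun m hm g g1 g2 V _ G U => ?_⟩
  have t2 : 2 * (t : ℝ) ≤ m * ε := (div_le_iff₀ e1).1 (Nat.ceil_le.1 (show _ ≤ m by omega))
  have t3 : 2 * (k : ℝ) ≤ m := by exact_mod_cast (show 2 * k ≤ m by omega)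
  induction U using Finset.strongInduction with
  | H U ih =>
    intro H
    by_cases h : ∃ v ∈ U, m ≤ dg G U v + (4 * k + 2) * dg H U v
    · obtain ⟨v, hv, h⟩ := h
      have h1 := ih _ (erase_ssubset hv) H
      have h2 := al_mono (k := k) (G := G) (H := H) (erase_subset v U)
      have h3 := card_erase_add_one hv
      unfold Ineq at h1 ⊢
      rw [E2_erase (G := G) hv, E2_erase (G := H) hv, ← h3]
      have h4 := Nat.mul_le_mul_right (m * (m + 1) + g) h2
      have h5 := Nat.mul_le_mul_left (2 * (k + 1)) h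
      nlinarith
    push Not at h
    by_contra hn
    have hU : U.Nonempty := by
      rw [nonempty_iff_ne_empty]
      rintro rfl
      simp [Ineq] at hn
    have a0 : (0 : ℝ) ≤ al k G H U := Nat.cast_nonneg _
    have n0 : (0 : ℝ) ≤ U.card := Nat.cast_nonneg _
    have f1 := fail_bound (t := 2 * k) (by omega) hn
    have f2 := fail_bound (t := t) (by omega) hn
    have f3 : (E2 H U : ℝ) ≤ 4 * k * U.card := by
      have : (0 : ℝ) ≤ al k G H U * (2 * k * (m - 2 * k)) :=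
        mul_nonneg a0 (mul_nonneg (by positivity) (by linarith))
      push_cast at f1
      refine le_of_mul_le_mul_left (a := (k : ℝ) + 1) ?_ (by positivity)
      nlinarith
    have f4 : m * (al k G H U : ℝ) ≤ (1 + ε0) * (k + 1) * U.card := by
      have m0 : (0 : ℝ) ≤ m := Nat.cast_nonneg _
      have b1 : 2 * m * t * (1 - ε / 2) ≤ 2 * m * t - t ^ 2 - 2 * k * (m : ℝ) := by
        have c1 := mul_le_mul_of_nonneg_left t1 m0
        have c2 := mul_le_mul_of_nonneg_left t2 t0.le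
        nlinarith
      have b2 := mul_le_mul_of_nonneg_left b1 a0
      have b3 : (0 : ℝ) ≤ (k + 1) * E2 H U := by positivity
      have b4 : (1 - ε / 2) * (m * al k G H U) ≤ (k + 1) * U.card := by
        refine le_of_mul_le_mul_left (a := 2 * (t : ℝ)) ?_ (by positivity)
        nlinarith
      have b5 : 1 ≤ (1 + ε) * (1 - ε / 2) := by nlinarith
      calc m * (al k G H U : ℝ) ≤ (1 + ε) * (1 - ε / 2) * (m * al k G H U) :=
            le_mul_of_one_le_left (by positivity) b5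
        _ = (1 + ε) * ((1 - ε / 2) * (m * al k G H U)) := by ring
        _ ≤ (1 + ε) * ((k + 1) * U.card) := by gcongr
        _ ≤ (1 + ε0) * ((k + 1) * U.card) := by gcongr
        _ = _ := by ring
    obtain ⟨Q, q1, q2, q3, q4⟩ := hm2 m (by omega) V G H U hU (fun v hv => (h v hv).le) f4 f3
    refine hn (hm1 m (by omega) g g1 g2 V G H U Q q1 q2 q3 (fun q hq => le_trans ?_ (q4 q hq))
      (fun v hv => (h v hv).le) ih)
    gcongr
    exact min_le_left _ _

/-- disjoint union of initial segments of a graph on the natural numbers -/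
def blocks (F : SimpleGraph ℕ) {I : Type} (sz : I → ℕ) : SimpleGraph (Σ i : I, Fin (sz i)) where
  Adj x y := x.1 = y.1 ∧ F.Adj x.2 y.2
  symm := ⟨fun _ _ h => ⟨h.1.symm, h.2.symm⟩⟩
  loopless := ⟨fun _ h => F.irrefl h.2⟩

lemma sigma_eq {I : Type} {sz : I → ℕ} {x y : Σ i : I, Fin (sz i)} (h : x.1 = y.1)
    (h' : (x.2 : ℕ) = y.2) : x = y := by
  obtain ⟨i, x⟩ := x
  obtain ⟨j, y⟩ := y
  cases h
  exact congrArg _ (Fin.ext h')

lemma E2_blocks (F : SimpleGraph ℕ) {I : Type} [Fintype I] [DecidableEq I] (sz : I → ℕ) :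
    E2 (blocks F sz) univ ≤ ∑ i, E2 F (range (sz i)) := by
  unfold E2
  rw [Fintype.sum_sigma]
  refine sum_le_sum fun i _ => ?_
  rw [← Fin.sum_univ_eq_sum_range (fun y => dg F (range (sz i)) y)]
  refine sum_le_sum fun y _ => card_le_card_of_injOn (fun x => (x.2 : ℕ)) (fun x hx => ?_)
    fun x hx x' hx' e => ?_
  · have := (mem_nb.1 hx).2
    refine mem_coe.2 (mem_nb.2 ⟨mem_range.2 ?_, this.2⟩)
    have e : i = x.1 := this.1
    rw [e]
    exact x.2.2
  · exact sigma_eq ((mem_nb.1 hx).2.1.symm.trans (mem_nb.1 hx').2.1) e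

lemma al_blocks {F : SimpleGraph ℕ} (hF : ∀ S, Valid k F ⊥ S → S.card ≤ k + 1) {I : Type}
    [Fintype I] [DecidableEq I] (sz : I → ℕ) :
    al k (blocks F sz) ⊥ univ ≤ (k + 1) * Fintype.card I := by
  obtain ⟨S, -, h1, h2⟩ := exists_al k (blocks F sz) ⊥ univ
  rw [← h2]
  refine card_le_mul_card_image_of_maps_to (f := fun x => x.1) (t := univ) (fun _ _ => mem_univ _)
    _ fun i _ => ?_
  rw [← card_image_of_injOn (f := fun x => (x.2 : ℕ)) fun x hx y hy e =>
    sigma_eq ((mem_filter.1 hx).2.trans (mem_filter.1 hy).2.symm) e]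
  refine hF _ ⟨fun v hv => ?_, by simp⟩
  obtain ⟨x, hx, rfl⟩ := mem_image.1 hv
  refine le_trans ?_ (h1.1 x (mem_filter.1 hx).1)
  refine le_trans (card_le_card fun w hw => ?_) (card_image_le (f := fun x => (x.2 : ℕ)))
  obtain ⟨y, hy, rfl⟩ := mem_image.1 (mem_nb.1 hw).1
  exact mem_image.2 ⟨y, mem_nb.2 ⟨(mem_filter.1 hy).1,
    (mem_filter.1 hx).2.trans (mem_filter.1 hy).2.symm, (mem_nb.1 hw).2⟩, rfl⟩

/-- complete graph minus the clique on `0, ..., k` -/
def F1 (k : ℕ) : SimpleGraph ℕ where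
  Adj x y := x ≠ y ∧ (k < x ∨ k < y)
  symm := ⟨fun _ _ h => ⟨h.1.symm, h.2.symm⟩⟩
  loopless := ⟨fun _ h => h.1 rfl⟩

/-- cocktail party graph -/
def F2 : SimpleGraph ℕ where
  Adj x y := x / 2 ≠ y / 2
  symm := ⟨fun _ _ h => h.symm⟩
  loopless := ⟨fun _ h => h rfl⟩

lemma F1_al (S : Finset ℕ) (h : Valid k (F1 k) ⊥ S) : S.card ≤ k + 1 := by
  by_cases h1 : ∃ v ∈ S, k < v
  · obtain ⟨v, hv, h1⟩ := h1
    have h2 : (S.erase v).card ≤ dg (F1 k) S v := card_le_card fun w hw =>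
      mem_nb.2 ⟨(mem_erase.1 hw).2, (mem_erase.1 hw).1.symm, Or.inl h1⟩
    have h3 := h.1 v hv
    have h4 := card_erase_add_one hv
    omega
  · push Not at h1
    rw [← card_range (k + 1)]
    exact card_le_card fun v hv => mem_range.2 (Nat.lt_succ_of_le (h1 v hv))

lemma F1_E2 {p : ℕ} (hp : k + 1 ≤ p) : E2 (F1 k) (range p) + k * (k + 1) + p ≤ p * p := by
  have h1 := E2_compl (G := F1 k) (X := range p)
  have h2 := E2_compl (G := F1 k) (X := range (k + 1))
  have h3 : E2 (F1 k) (range (k + 1)) = 0 := sum_eq_zero fun v hv => dg_eq_zero.2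
    fun w hw a => by
      rw [mem_range] at hv hw
      have := a.2
      omega
  have h4 : E2 (F1 k)ᶜ (range (k + 1)) ≤ E2 (F1 k)ᶜ (range p) := E2_mono (range_mono hp)
  rw [card_range] at h1 h2
  nlinarith

lemma F2_al (hk : Odd k) (S : Finset ℕ) (h : Valid k F2 ⊥ S) : S.card ≤ k + 1 := by
  by_contra hn
  obtain ⟨T, t1, t2⟩ := exists_subset_card_eq (show k + 2 ≤ S.card by omega)
  have h1 : ∀ v ∈ T, dg F2ᶜ T v = 1 := by
    intro v hv
    have e1 := dg_compl (G := F2) hv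
    have e2 := (h.mono t1).1 v hv
    have e3 : dg F2ᶜ T v ≤ 1 := card_le_one.2 fun x hx y hy => by
      have a := (mem_nb.1 hx).2
      have b := (mem_nb.1 hy).2
      simp only [SimpleGraph.compl_adj, F2, not_not] at a b
      omega
    omega
  have h2 := E2_even F2ᶜ T
  rw [E2, sum_congr rfl h1, ← card_eq_sum_ones, t2] at h2
  obtain ⟨a, ha⟩ := hk
  obtain ⟨b, hb⟩ := h2
  omega

lemma F2_E2 {p : ℕ} (hp : Even p) : E2 F2 (range p) + 2 * p ≤ p * p := by
  have h1 := E2_compl (G := F2) (X := range p)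
  have h2 : ∑ _v ∈ range p, 1 ≤ E2 F2ᶜ (range p) := by
    refine sum_le_sum fun v hv => card_pos.2 ⟨if v % 2 = 0 then v + 1 else v - 1, ?_⟩
    obtain ⟨a, ha⟩ := hp
    simp only [mem_nb, mem_range, SimpleGraph.compl_adj, F2, not_not] at hv ⊢
    split_ifs <;> omega
  rw [← card_eq_sum_ones] at h2
  rw [card_range] at h1 h2
  omega

/-- `a` blocks of size `p` and `b` blocks of size `q` -/
lemma exists_two {F : SimpleGraph ℕ} (hF : ∀ S, Valid k F ⊥ S → S.card ≤ k + 1) (a p b q : ℕ) :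
    ∃ (V : Type) (_ : Fintype V) (_ : DecidableEq V) (G : SimpleGraph V),
      Fintype.card V = a * p + b * q ∧ E2 G univ ≤ a * E2 F (range p) + b * E2 F (range q) ∧
        al k G ⊥ univ ≤ (k + 1) * (a + b) := by
  refine ⟨_, inferInstance, inferInstance,
    blocks F (I := Fin a ⊕ Fin b) (Sum.elim (fun _ => p) fun _ => q), ?_, ?_, ?_⟩
  · simp [Fintype.card_sigma, Fintype.sum_sum_type]
  · simpa [Fintype.sum_sum_type] using
      E2_blocks F (I := Fin a ⊕ Fin b) (Sum.elim (fun _ => p) fun _ => q)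
  · simpa using al_blocks hF (I := Fin a ⊕ Fin b) (Sum.elim (fun _ => p) fun _ => q)

end Pool.Agent.P.MP_39eed7_co
end
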